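import Pool.Agent.Work.MP_bec1e1_Q_h57.ALLQ
import Pool.Agent.Work.MP_bec1e1_lv_helper15.Interface0
import Pool.Agent.Work.MP_bec1e1_lv_helper14.PHI1

/-! # (Q) in the form of `MP_bec1e1_lv_helper15.Interface0` -/

set_option autoImplicit false

open Filter Topology
open scoped BigOperators

namespace Pool.Agent.LCSV

open Pool.Agent.LCSE

/-- **Q**: quenched exponential growth at every `z > 0`. -/
theorem stmt_Q (hDEF : Stmt_DEF) : Stmt_Q := by
  intro k hk hR z hz
  have hk0 : 0 < k := by omega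
  obtain ⟨C, hC0, hC⟩ := hDEF k hk
  have hdiag : ∀ n : ℕ, Phi k n n = gam k * n := fun n => Phi_diag hk0 n (Nat.cast_nonneg n)
  have hsup : ∀ n : ℕ, EL k n ≤ gam k * n := by
    intro n
    have := F_le_Phi (k := k) hk0 n n
    rw [hdiag] at this
    exact this
  have hlow : ∃ C : ℝ, 0 ≤ C ∧ ∀ n : ℕ, gam k * n - C * Real.sqrt n ≤ EL k n := by
    refine ⟨C * √2, by positivity, fun n => ?_⟩
    have h1 := hC n n
    rw [hdiag] at h1
    have h2 : √((n : ℝ) + n) = √2 * √(n : ℝ) := by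
      rw [← Real.sqrt_mul (by norm_num : (0 : ℝ) ≤ 2)]
      congr 1
      ring
    rw [h2] at h1
    have h3 : F k n n = EL k n := rfl
    rw [h3] at h1
    nlinarith
  obtain ⟨n, hn⟩ := Pool.Agent.LCSQ.stmt_Q k (gam k) hk (gam_pos hk) (gam_lt hk) (gam_eq hk0)
    hsup hlow hR z hz
  have hLQ : LCSQ.LQ k z n n =
      Ex k n fun y => Real.log (Ex k n fun x => Real.exp (z * (L x y : ℝ))) := by
    unfold LCSQ.LQ
    refine Ex_congr fun y _ => ?_
    congr 1
    exact Ex_congr fun x _ => by rw [L_comm]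
  refine ⟨n, ?_, hLQ ▸ hn⟩
  rcases Nat.eq_zero_or_pos n with h0 | h0
  · exfalso
    subst h0
    rw [hLQ] at hn
    simp [Ex, L] at hn
  · exact h0

end Pool.Agent.LCSV
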