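import Pool.Agent.Work.MP_bec1e1_Q_h57.Base2
import Pool.Agent.Work.MP_bec1e1_E_helper47.ALL

/-!
# Block SPEC: special rows from the upper tail theorem (E)
-/

set_option autoImplicit false

open scoped BigOperators
open Filter Topology

namespace Pool.Agent.LCSQ
namespace SPECAux

open Pool.Agent.LCSE

variable {k : ℕ}

/-- the special words: quenched excess at least `g` on the diagonal -/
def Sp (k : ℕ) (z γ : ℝ) (n : ℕ) (g : ℝ) (w : List (Fin k)) : Prop :=
  Real.exp (z * γ * n + g) ≤ W k z w n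

open Classical in
/-- natural probability of the special words of length `n` -/
noncomputable def PSp (k : ℕ) (z γ : ℝ) (n : ℕ) (g : ℝ) : ℝ :=
  Ex k n (fun w => if Sp k z γ n g w then 1 else 0)

lemma PSp_nonneg (z γ : ℝ) (n : ℕ) (g : ℝ) : 0 ≤ PSp k z γ n g :=
  Ex_nonneg fun _ _ => by split_ifs <;> norm_num

lemma Sp_append (hk : 0 < k) {z γ : ℝ} (hz : 0 ≤ z) {n m : ℕ} {g h : ℝ} {u v : List (Fin k)}
    (hu : Sp k z γ n g u) (hv : Sp k z γ m h v) : Sp k z γ (n + m) (g + h) (u ++ v) := by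
  unfold Sp at *
  calc Real.exp (z * γ * ((n + m : ℕ) : ℝ) + (g + h))
      = Real.exp (z * γ * n + g) * Real.exp (z * γ * m + h) := by
        rw [← Real.exp_add]; congr 1; push_cast; ring
    _ ≤ W k z u n * W k z v m :=
        mul_le_mul hu hv (Real.exp_pos _).le (W_pos hk z u n).le
    _ ≤ W k z (u ++ v) (n + m) := W_mul_le hk hz u v n m

lemma PSp_mul_le (hk : 0 < k) {z γ : ℝ} (hz : 0 ≤ z) (n m : ℕ) (g h : ℝ) :
    PSp k z γ n g * PSp k z γ m h ≤ PSp k z γ (n + m) (g + h) := by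
  classical
  unfold PSp
  rw [Ex_append, ← Ex_mul_const]
  refine Ex_mono fun u _ => ?_
  rw [← Ex_const_mul]
  refine Ex_mono fun v _ => ?_
  by_cases hu : Sp k z γ n g u
  · by_cases hv : Sp k z γ m h v
    · rw [if_pos hu, if_pos hv, if_pos (Sp_append hk hz hu hv)]; norm_num
    · rw [if_neg hv, mul_zero]; split_ifs <;> norm_num
  · rw [if_neg hu, zero_mul]; split_ifs <;> norm_num

lemma PSp_pow_le (hk : 0 < k) {z γ : ℝ} (hz : 0 ≤ z) (n : ℕ) (g : ℝ) (r : ℕ) :
    PSp k z γ n g ^ r ≤ PSp k z γ (r * n) (r * g) := by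
  induction r with
  | zero =>
    have h : Sp k z γ 0 0 ([] : List (Fin k)) := by
      unfold Sp
      simp [W_zero]
    simp [PSp, h]
  | succ r ih =>
    calc PSp k z γ n g ^ (r + 1) = PSp k z γ n g ^ r * PSp k z γ n g := pow_succ _ _
      _ ≤ PSp k z γ (r * n) (r * g) * PSp k z γ n g :=
          mul_le_mul_of_nonneg_right ih (PSp_nonneg _ _ _ _)
      _ ≤ PSp k z γ (r * n + n) (r * g + g) := PSp_mul_le hk hz _ _ _ _
      _ = _ := by
          have h1 : r * n + n = (r + 1) * n := by ring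
          have h2 : (r : ℝ) * g + g = ((r + 1 : ℕ) : ℝ) * g := by push_cast; ring
          rw [h1, h2]

open Classical in
/-- one scale: if `P(L ≥ γ n + D) ≥ δ` then words with `P_y(L(x,y) ≥ γ n + D) ≥ δ/2` are special -/
lemma PSp_of_PrL (hk : 0 < k) {z γ : ℝ} (hz : 0 ≤ z) (n : ℕ) (D δ : ℝ) (hδ : 0 < δ)
    (h : δ ≤ PrL k n (γ * n + D)) :
    δ / 2 ≤ PSp k z γ n (z * D + Real.log (δ / 2)) := by
  set q : List (Fin k) → ℝ :=
    fun x => Ex k n (fun y => if γ * n + D ≤ (L x y : ℝ) then 1 else 0) with hq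
  have hq1 : ∀ x, q x ≤ 1 := fun x => Ex_le_const hk fun y _ => by split_ifs <;> norm_num
  have hW : ∀ x : List (Fin k), q x * Real.exp (z * (γ * n + D)) ≤ W k z x n := by
    intro x
    rw [hq]
    simp only
    rw [← Ex_mul_const]
    refine Ex_mono fun y _ => ?_
    split_ifs with h1
    · rw [one_mul]
      exact Real.exp_le_exp.mpr (mul_le_mul_of_nonneg_left h1 hz)
    · rw [zero_mul]; exact (Real.exp_pos _).le
  have h2 : PrL k n (γ * n + D) = Ex k n q := rfl
  have h3 : Ex k n q ≤ Ex k n (fun x => δ / 2 +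
      (if Sp k z γ n (z * D + Real.log (δ / 2)) x then 1 else 0)) := by
    refine Ex_mono fun x _ => ?_
    by_cases hx : δ / 2 ≤ q x
    · have : Sp k z γ n (z * D + Real.log (δ / 2)) x := by
        unfold Sp
        calc Real.exp (z * γ * n + (z * D + Real.log (δ / 2)))
            = δ / 2 * Real.exp (z * (γ * n + D)) := by
              have : z * γ * n + (z * D + Real.log (δ / 2)) =
                  Real.log (δ / 2) + z * (γ * n + D) := by ring
              rw [this, Real.exp_add, Real.exp_log (by positivity)]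
          _ ≤ q x * Real.exp (z * (γ * n + D)) :=
              mul_le_mul_of_nonneg_right hx (Real.exp_pos _).le
          _ ≤ _ := hW x
      rw [if_pos this]
      linarith [hq1 x]
    · push Not at hx
      have : (0 : ℝ) ≤ if Sp k z γ n (z * D + Real.log (δ / 2)) x then 1 else 0 := by
        split_ifs <;> norm_num
      linarith
  rw [Ex_add, Ex_const hk] at h3
  unfold PSp
  linarith

end SPECAux

open SPECAux Pool.Agent.LCSE

/-- special rows: for every `z > 0` there are a length `n₀` and an excess `g₀ > 0` such that for all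
`r` the words of length `r n₀` with quenched excess `≥ r g₀` have probability
`≥ exp (- r g₀ / 20)` -/
theorem spec (k : ℕ) (hk : 2 ≤ k) (γ : ℝ)
    (hγ : Tendsto (fun n : ℕ => EL k n / n) atTop (𝓝 γ)) (hsup : ∀ n : ℕ, EL k n ≤ γ * n)
    (z : ℝ) (hz : 0 < z) :
    ∃ (n₀ : ℕ) (g₀ : ℝ), 1 ≤ n₀ ∧ 0 < g₀ ∧ ∀ r : ℕ,
      Real.exp (-(r * g₀ / 20)) ≤ PSp k z γ (r * n₀) (r * g₀) := by
  have hk0 : 0 < k := by omega
  obtain ⟨δ₀, hδ₀, hT⟩ := stmt_TAIL stmt_E k hk γ hγ hsup (z / 100) (by positivity)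
  have h1 := hT (δ₀ / 2) (by positivity) (by linarith)
  have h2 : ∀ᶠ n : ℕ in atTop, 20 / (z * (δ₀ / 2)) ≤ (n : ℝ) :=
    tendsto_natCast_atTop_atTop.eventually_ge_atTop _
  obtain ⟨n, h3, h4, h5⟩ := (h1.and (h2.and (eventually_ge_atTop 1))).exists
  set D : ℝ := δ₀ / 2 * n with hD
  have hn0 : (0 : ℝ) < n := by exact_mod_cast h5
  have hDpos : 0 < D := by positivity
  have hzD : 20 ≤ z * D := by
    rw [div_le_iff₀ (by positivity)] at h4
    rw [hD]; linarith
  have h6 : Real.exp (-(z / 100 * D)) ≤ PrL k n (γ * n + D) := by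
    have e1 : z / 100 * (δ₀ / 2) * n = z / 100 * D := by rw [hD]; ring
    have e2 : (γ + δ₀ / 2) * n = γ * n + D := by rw [hD]; ring
    rw [e1, e2] at h3
    exact h3
  have h7 := PSp_of_PrL hk0 hz.le n D (Real.exp (-(z / 100 * D))) (Real.exp_pos _) h6
  set g₀ : ℝ := z * D + Real.log (Real.exp (-(z / 100 * D)) / 2) with hg
  have hlog : Real.log (Real.exp (-(z / 100 * D)) / 2) = -(z / 100 * D) - Real.log 2 := by
    rw [Real.log_div (Real.exp_pos _).ne' two_ne_zero, Real.log_exp]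
  have hl2 : Real.log 2 < 0.7 := by
    have := Real.log_two_lt_d9
    linarith
  have hl2' : 0 < Real.log 2 := Real.log_pos (by norm_num)
  have hg' : g₀ = z * D * (99 / 100) - Real.log 2 := by rw [hg, hlog]; ring
  have hg0 : 0 < g₀ := by rw [hg']; linarith
  have h8 : Real.exp (-(g₀ / 20)) ≤ Real.exp (-(z / 100 * D)) / 2 := by
    have e3 : Real.exp (-(z / 100 * D)) / 2 = Real.exp (-(z / 100 * D) - Real.log 2) := by
      rw [Real.exp_sub, Real.exp_log (by norm_num)]
    rw [e3]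
    apply Real.exp_le_exp.mpr
    rw [hg']
    linarith
  refine ⟨n, g₀, h5, hg0, fun r => ?_⟩
  calc Real.exp (-(r * g₀ / 20)) = Real.exp (-(g₀ / 20)) ^ r := by
        rw [← Real.exp_nat_mul]; congr 1; ring
    _ ≤ PSp k z γ n g₀ ^ r := pow_le_pow_left₀ (Real.exp_pos _).le (h8.trans h7) r
    _ ≤ PSp k z γ (r * n) (r * g₀) := PSp_pow_le hk0 hz.le n g₀ r

end Pool.Agent.LCSQ
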