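import Pool.Agent.Work.MP_bec1e1_Q_h57.Interface
import Pool.Agent.Work.MP_bec1e1_Q_h57.SPEC

/-!
# Block FINC: natural special words make the variance of the free energy polynomial
-/

set_option autoImplicit false

open scoped BigOperators
open Filter Topology

namespace Pool.Agent.LCSQ
namespace FINCAux

open Pool.Agent.LCSE SPECAux

variable {k : ℕ}

/-- number of the first `N` blocks of length `s` which satisfy `χ` -/
def SN (χ : List (Fin k) → ℝ) (s : ℕ) : ℕ → List (Fin k) → ℝ
  | 0, _ => 0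
  | (N + 1), x => χ (x.take s) + SN χ s N (x.drop s)

lemma Ex_SN (hk : 0 < k) (χ : List (Fin k) → ℝ) (s N : ℕ) :
    Ex k (N * s) (SN χ s N) = N * Ex k s χ := by
  induction N with
  | zero => simp [SN]
  | succ N ih =>
    have h1 : (N + 1) * s = s + N * s := by ring
    rw [h1, Ex_append]
    have h2 : ∀ u : List (Fin k), u.length = s →
        Ex k (N * s) (fun v => SN χ s (N + 1) (u ++ v)) = χ u + N * Ex k s χ := by
      intro u hu
      have : ∀ v : List (Fin k), SN χ s (N + 1) (u ++ v) = χ u + SN χ s N v := by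
        intro v
        simp only [SN]
        rw [List.take_left' hu, List.drop_left' hu]
      simp only [this]
      rw [Ex_add, Ex_const hk, ih]
    rw [Ex_congr h2, Ex_add, Ex_const hk]
    push_cast; ring

/-- variance of the number of special blocks -/
lemma Ex_SN_sq (hk : 0 < k) (χ : List (Fin k) → ℝ) (s N : ℕ)
    (hχ : ∀ w, χ w = 0 ∨ χ w = 1) :
    Ex k (N * s) (fun x => (SN χ s N x - N * Ex k s χ) ^ 2) ≤ N * Ex k s χ := by
  set π := Ex k s χ with hπ
  induction N with
  | zero => simp [SN]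
  | succ N ih =>
    have h1 : (N + 1) * s = s + N * s := by ring
    rw [h1, Ex_append]
    have h2 : ∀ u : List (Fin k), u.length = s →
        Ex k (N * s) (fun v => (SN χ s (N + 1) (u ++ v) - ((N + 1 : ℕ) : ℝ) * π) ^ 2) =
          (χ u - π) ^ 2 + Ex k (N * s) (fun x => (SN χ s N x - N * π) ^ 2) := by
      intro u hu
      have : ∀ v : List (Fin k), (SN χ s (N + 1) (u ++ v) - ((N + 1 : ℕ) : ℝ) * π) ^ 2 =
          (χ u - π) ^ 2 + ((SN χ s N v - N * π) ^ 2 + 2 * (χ u - π) * (SN χ s N v - N * π)) := by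
        intro v
        simp only [SN]
        rw [List.take_left' hu, List.drop_left' hu]
        push_cast
        ring
      simp only [this]
      rw [Ex_add, Ex_const hk, Ex_add, Ex_const_mul, Ex_sub, Ex_const hk, Ex_SN hk]
      ring
    rw [Ex_congr h2, Ex_add, Ex_const hk]
    have h3 : Ex k s (fun u => (χ u - π) ^ 2) ≤ π := by
      have h4 : ∀ u : List (Fin k), (χ u - π) ^ 2 = (1 - 2 * π) * χ u + π ^ 2 := by
        intro u
        rcases hχ u with h | h <;> rw [h] <;> ring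
      simp only [h4]
      rw [Ex_add, Ex_const_mul, Ex_const hk, ← hπ]
      nlinarith [sq_nonneg π]
    push_cast
    linarith

/-- the one-block bound -/
lemma block_ge (hk : 0 < k) {z p q : ℝ} {C : ℝ} (hC : 1 ≤ C)
    (hsup : ∀ x₁ x₂ : List (Fin k),
      FE k z p q x₁ + FE k z p q x₂ - Real.log (C * (x₁.length + x₂.length + 1)) ≤
        FE k z p q (x₁ ++ x₂))
    (χ : List (Fin k) → ℝ) (hχ : ∀ w, χ w = 0 ∨ χ w = 1) (s : ℕ) (g : ℝ)
    (hg : ∀ w : List (Fin k), w.length = s → χ w = 1 → g ≤ FE k z p q w)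
    (a b M : ℕ) (hM : a + (s + b) = M) :
    Ex k s χ * (hh k z p q a + g + hh k z p q b - 2 * Real.log (C * (M + 1))) ≤
      Ex k a (fun u => Ex k s (fun w => Ex k b (fun x => FE k z p q (u ++ (w ++ x)) * χ w))) := by
  set F := FE k z p q with hF
  set ℓ := Real.log (C * (M + 1)) with hℓ
  have h1 : ∀ u w x : List (Fin k), u.length = a → w.length = s → x.length = b →
      (F u + g + F x - 2 * ℓ) * χ w ≤ F (u ++ (w ++ x)) * χ w := by
    intro u w x hu hw hx
    rcases hχ w with h | h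
    · rw [h]; simp
    · rw [h, mul_one, mul_one]
      have h2 := hsup u (w ++ x)
      have h3 := hsup w x
      have h4 : Real.log (C * (u.length + (w ++ x).length + 1)) = ℓ := by
        rw [hℓ, List.length_append, hu, hw, hx, ← hM]
        push_cast; ring_nf
      have h5 : Real.log (C * (w.length + x.length + 1)) ≤ ℓ := by
        rw [hℓ]
        apply Real.log_le_log (by positivity)
        apply mul_le_mul_of_nonneg_left _ (by linarith)
        rw [hw, hx, ← hM]
        push_cast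
        have : (0 : ℝ) ≤ a := Nat.cast_nonneg _
        linarith
      rw [h4] at h2
      have h6 := hg w hw h
      linarith
  have h7 : Ex k a (fun u => Ex k s (fun w => Ex k b (fun x => (F u + g + F x - 2 * ℓ) * χ w))) ≤
      Ex k a (fun u => Ex k s (fun w => Ex k b (fun x => F (u ++ (w ++ x)) * χ w))) :=
    Ex_mono fun u hu => Ex_mono fun w hw => Ex_mono fun x hx => h1 u w x hu hw hx
  refine le_trans (le_of_eq ?_) h7
  have h8 : ∀ u w : List (Fin k), Ex k b (fun x => (F u + g + F x - 2 * ℓ) * χ w) =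
      χ w * (F u + (g + hh k z p q b - 2 * ℓ)) := by
    intro u w
    rw [Ex_mul_const]
    have : ∀ x : List (Fin k), F u + g + F x - 2 * ℓ = (F u + g - 2 * ℓ) + F x := fun x => by ring
    simp only [this]
    rw [Ex_add, Ex_const hk]
    unfold hh
    ring
  simp only [h8]
  have h9 : ∀ u : List (Fin k), Ex k s (fun w => χ w * (F u + (g + hh k z p q b - 2 * ℓ))) =
      Ex k s χ * F u + Ex k s χ * (g + hh k z p q b - 2 * ℓ) := by
    intro u
    rw [Ex_mul_const]; ring
  simp only [h9]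
  rw [Ex_add, Ex_const hk, Ex_const_mul]
  unfold hh
  ring

/-- covariance with the number of special blocks -/
lemma cov_ge (hk : 0 < k) {z p q : ℝ} {C : ℝ} (hC : 1 ≤ C)
    (hsub : ∀ x₁ x₂ : List (Fin k), FE k z p q (x₁ ++ x₂) ≤ FE k z p q x₁ + FE k z p q x₂)
    (hsup : ∀ x₁ x₂ : List (Fin k),
      FE k z p q x₁ + FE k z p q x₂ - Real.log (C * (x₁.length + x₂.length + 1)) ≤
        FE k z p q (x₁ ++ x₂))
    (χ : List (Fin k) → ℝ) (hχ : ∀ w, χ w = 0 ∨ χ w = 1) (s : ℕ) (g : ℝ)
    (hg : ∀ w : List (Fin k), w.length = s → χ w = 1 → g ≤ FE k z p q w) (M : ℕ) :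
    ∀ N a : ℕ, a + N * s = M →
    N * Ex k s χ * (hh k z p q M + (g - 2 * Real.log (C * (M + 1)) - hh k z p q s)) ≤
      Ex k a (fun u => Ex k (N * s) (fun x => FE k z p q (u ++ x) * SN χ s N x)) := by
  have hhsub : ∀ m n : ℕ, hh k z p q (m + n) ≤ hh k z p q m + hh k z p q n := by
    intro m n
    unfold hh
    rw [Ex_append]
    have : Ex k m (fun u => Ex k n (fun v => FE k z p q (u ++ v))) ≤
        Ex k m (fun u => Ex k n (fun v => FE k z p q u + FE k z p q v)) :=
      Ex_mono fun u _ => Ex_mono fun v _ => hsub u v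
    refine this.trans (le_of_eq ?_)
    have h : ∀ u : List (Fin k), Ex k n (fun v => FE k z p q u + FE k z p q v) =
        FE k z p q u + Ex k n (FE k z p q) := by
      intro u; rw [Ex_add, Ex_const hk]
    simp only [h]
    rw [Ex_add, Ex_const hk]
  have hπ : 0 ≤ Ex k s χ := Ex_nonneg fun w _ => by rcases hχ w with h | h <;> rw [h] <;> norm_num
  intro N
  induction N with
  | zero => intro a _; simp [SN, Ex_zero_fun]
  | succ N ih =>
    intro a ha
    have h1 : (N + 1) * s = s + N * s := by ring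
    have h2 : ∀ u : List (Fin k), Ex k ((N + 1) * s) (fun x => FE k z p q (u ++ x) *
        SN χ s (N + 1) x) = Ex k s (fun w => Ex k (N * s) (fun x => FE k z p q (u ++ (w ++ x)) * χ w))
        + Ex k s (fun w => Ex k (N * s) (fun x => FE k z p q ((u ++ w) ++ x) * SN χ s N x)) := by
      intro u
      rw [h1, Ex_append, ← Ex_add]
      refine Ex_congr fun w hw => ?_
      rw [← Ex_add]
      refine Ex_congr fun x _ => ?_
      simp only [SN]
      rw [List.take_left' hw, List.drop_left' hw, List.append_assoc]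
      ring
    simp only [h2]
    rw [Ex_add, ← Ex_append a s (fun v => Ex k (N * s) (fun x => FE k z p q (v ++ x) * SN χ s N x))]
    have h3 := ih (a + s) (by rw [← ha]; ring)
    have h4 := block_ge hk hC hsup χ hχ s g hg a (N * s) M (by rw [← ha]; ring)
    have h5 : hh k z p q M ≤ hh k z p q a + hh k z p q s + hh k z p q (N * s) := by
      rw [← ha, h1]
      linarith [hhsub a (s + N * s), hhsub s (N * s)]
    have h6 : Ex k s χ * (hh k z p q M + (g - 2 * Real.log (C * (M + 1)) - hh k z p q s)) ≤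
        Ex k s χ * (hh k z p q a + g + hh k z p q (N * s) - 2 * Real.log (C * (M + 1))) :=
      mul_le_mul_of_nonneg_left (by linarith) hπ
    push_cast
    linarith

/-- the variance is at least `(3/4) N π` -/
lemma var_ge (hk : 0 < k) {z p q : ℝ} {C : ℝ} (hC : 1 ≤ C)
    (hsub : ∀ x₁ x₂ : List (Fin k), FE k z p q (x₁ ++ x₂) ≤ FE k z p q x₁ + FE k z p q x₂)
    (hsup : ∀ x₁ x₂ : List (Fin k),
      FE k z p q x₁ + FE k z p q x₂ - Real.log (C * (x₁.length + x₂.length + 1)) ≤
        FE k z p q (x₁ ++ x₂))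
    (χ : List (Fin k) → ℝ) (hχ : ∀ w, χ w = 0 ∨ χ w = 1) (s : ℕ) (g : ℝ)
    (hg : ∀ w : List (Fin k), w.length = s → χ w = 1 → g ≤ FE k z p q w) (N : ℕ)
    (hA : 1 ≤ g - 2 * Real.log (C * ((N * s : ℕ) + 1)) - hh k z p q s) :
    3 / 4 * (N * Ex k s χ) ≤ vv k z p q (N * s) := by
  set M := N * s with hM
  set π := Ex k s χ with hπ
  set A := g - 2 * Real.log (C * ((M : ℕ) + 1)) - hh k z p q s with hAdef
  have hA0 : 0 < A := by linarith
  have hπ0 : 0 ≤ π := Ex_nonneg fun w _ => by rcases hχ w with h | h <;> rw [h] <;> norm_num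
  have h1 := cov_ge hk hC hsub hsup χ hχ s g hg M N 0 (by simp [hM])
  simp only [Ex_zero, List.nil_append] at h1
  rw [← hM, ← hπ, ← hAdef] at h1
  have h2 := Ex_SN_sq hk χ s N hχ
  rw [← hM, ← hπ] at h2
  have h3 : Ex k M (SN χ s N) = N * π := by rw [hM, hπ]; exact Ex_SN hk χ s N
  -- AM-GM
  have h4 : ∀ x : List (Fin k), (FE k z p q x - hh k z p q M) * (SN χ s N x - N * π) ≤
      A⁻¹ * (FE k z p q x - hh k z p q M) ^ 2 + A / 4 * (SN χ s N x - N * π) ^ 2 := by
    intro x
    set f := FE k z p q x - hh k z p q M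
    set d := SN χ s N x - N * π
    have h5 : 0 ≤ A⁻¹ * (f - A / 2 * d) ^ 2 := by positivity
    have h6 : A⁻¹ * (f - A / 2 * d) ^ 2 = A⁻¹ * f ^ 2 - f * d + A / 4 * d ^ 2 := by
      field_simp; ring
    linarith
  have h7 := Ex_mono (k := k) (n := M) (fun x (_ : x.length = M) => h4 x)
  rw [Ex_add, Ex_const_mul, Ex_const_mul] at h7
  have h8 : Ex k M (fun x => (FE k z p q x - hh k z p q M) * (SN χ s N x - N * π)) =
      Ex k M (fun x => FE k z p q x * SN χ s N x) - N * π * hh k z p q M := by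
    have : ∀ x : List (Fin k), (FE k z p q x - hh k z p q M) * (SN χ s N x - N * π) =
        (FE k z p q x * SN χ s N x - hh k z p q M * SN χ s N x) -
          (N * π * FE k z p q x - hh k z p q M * (N * π)) := fun x => by ring
    simp only [this]
    rw [Ex_sub, Ex_sub, Ex_const_mul, Ex_sub, Ex_const_mul, Ex_const hk, h3]
    unfold hh
    ring
  rw [h8] at h7
  have h9 : vv k z p q M = Ex k M (fun x => (FE k z p q x - hh k z p q M) ^ 2) := rfl
  rw [← h9] at h7
  -- N π A ≤ A⁻¹ V + (A/4) N π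
  have h10 : N * π * A ≤ A⁻¹ * vv k z p q M + A / 4 * (N * π) := by
    have := mul_le_mul_of_nonneg_left h2 (by positivity : 0 ≤ A / 4)
    nlinarith [h1, h7]
  have h11 : 3 / 4 * (N * π) * A ≤ A⁻¹ * vv k z p q M := by linarith
  have h12 : 3 / 4 * (N * π) * A * A ≤ vv k z p q M := by
    have h13 := mul_le_mul_of_nonneg_right h11 hA0.le
    have h14 : A⁻¹ * vv k z p q M * A = vv k z p q M := by field_simp
    rwa [h14] at h13
  have hN0 : 0 ≤ 3 / 4 * (N * π) := by positivity
  nlinarith [mul_le_mul_of_nonneg_left hA hN0, mul_le_mul_of_nonneg_left hA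
    (mul_nonneg hN0 hA0.le)]

lemma ev_log (a ε : ℝ) (ha : 0 < a) (hε : 0 < ε) :
    ∀ᶠ r : ℕ in atTop, Real.log (a * r) ≤ ε * r := by
  have h1 : Tendsto (fun x : ℝ => Real.log x / x) atTop (𝓝 0) := by
    have := Real.isLittleO_log_id_atTop
    have h2 := this.tendsto_div_nhds_zero
    simpa using h2
  have h2 : Tendsto (fun r : ℕ => a * (r : ℝ)) atTop atTop :=
    tendsto_natCast_atTop_atTop.const_mul_atTop ha
  have h3 := (h1.comp h2).eventually (gt_mem_nhds (show (0 : ℝ) < ε / a by positivity))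
  filter_upwards [h3, eventually_ge_atTop 1] with r hr hr1
  have hr0 : (0 : ℝ) < r := by exact_mod_cast hr1
  have har : 0 < a * (r : ℝ) := by positivity
  simp only [Function.comp_apply] at hr
  rw [div_lt_div_iff₀ har ha] at hr
  have : Real.log (a * r) * a < ε * r * a := by linarith
  exact (lt_of_mul_lt_mul_right this ha.le).le

lemma ev_exp (c K : ℝ) (hc : 0 < c) : ∀ᶠ r : ℕ in atTop, K * (r : ℝ) ^ 2 < Real.exp (c * r) := by
  have h1 : ∀ᶠ r : ℕ in atTop, 6 * |K| / c ^ 3 + 1 ≤ (r : ℝ) :=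
    tendsto_natCast_atTop_atTop.eventually_ge_atTop _
  filter_upwards [h1] with r hr
  have hr0 : (0 : ℝ) < r := lt_of_lt_of_le (by positivity) hr
  have h2 : (c * r) ^ 3 / 6 ≤ Real.exp (c * r) := by
    have h3 := Real.pow_div_factorial_le_exp (c * r) (by positivity) 3
    have h4 : ((Nat.factorial 3 : ℕ) : ℝ) = 6 := by norm_num [Nat.factorial]
    rw [h4] at h3
    exact h3
  have h5 : 6 * |K| / c ^ 3 < r := by linarith
  rw [div_lt_iff₀ (by positivity)] at h5
  have h6 : K ≤ |K| := le_abs_self K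
  have h7 : K * (r : ℝ) ^ 2 ≤ |K| * (r : ℝ) ^ 2 := mul_le_mul_of_nonneg_right h6 (by positivity)
  have h8 : |K| * (r : ℝ) ^ 2 < (c * r) ^ 3 / 6 := by
    have h9 : 6 * |K| * (r : ℝ) ^ 2 < r * c ^ 3 * (r : ℝ) ^ 2 :=
      mul_lt_mul_of_pos_right h5 (by positivity)
    have h10 : (c * r) ^ 3 = r * c ^ 3 * (r : ℝ) ^ 2 := by ring
    rw [h10]; linarith
  linarith

end FINCAux

open FINCAux SPECAux Pool.Agent.LCSE

theorem finc (hSUB : Stmt_SUB) (hSUP : Stmt_SUP) : Stmt_FINC := by
  rintro k γ z p q ⟨hk, hγ0, hγ1, hz, hq, hpq, hPhi, hlim, hsup, hlow, hrig⟩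
    ⟨C₁, hC₁, hh1⟩ ⟨C₂, hC₂, hv⟩
  classical
  have hk0 : 0 < k := by omega
  obtain ⟨C₃, hC₃, hSP⟩ := hSUP k z p q hk0 hz hq
  have hSB := hSUB k z p q hk0 hz hq
  obtain ⟨n₀, g₀, hn₀, hg₀, hsp⟩ := spec k hk γ hlim hsup z hz
  have hn₀R : (1 : ℝ) ≤ n₀ := by exact_mod_cast hn₀
  -- asymptotics
  obtain ⟨r, hr1, e1, e2, e3, e4, e5⟩ := ((eventually_ge_atTop 1).and
    ((ev_log (4 * C₃ * n₀) (g₀ / 16) (by positivity) (by positivity)).and
    ((ev_log (2 * C₁ * n₀) (g₀ / 16) (by positivity) (by positivity)).and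
    ((ev_log (6 * n₀) (g₀ / 16) (by positivity) (by positivity)).and
    ((tendsto_natCast_atTop_atTop.eventually_ge_atTop (2 / g₀)).and
    (ev_exp (3 * g₀ / 40) (4 / 3 * (C₂ * g₀) ^ 2) (by positivity))))))).exists
  have hrR : (1 : ℝ) ≤ r := by exact_mod_cast hr1
  have hrg : 2 ≤ r * g₀ := by
    rwa [div_le_iff₀ hg₀] at e4
  set s := r * n₀ with hs
  set g := (r : ℝ) * g₀ with hg
  set χ : List (Fin k) → ℝ := fun w => if Sp k z γ s g w then 1 else 0 with hχdef
  have hχ : ∀ w, χ w = 0 ∨ χ w = 1 := by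
    intro w; simp only [hχdef]; split_ifs <;> simp
  have hπ : Real.exp (-(g / 20)) ≤ Ex k s χ := by
    have := hsp r
    unfold PSp at this
    simpa [hg, hs, hχdef] using this
  have hgF : ∀ w : List (Fin k), w.length = s → χ w = 1 → g ≤ FE k z p q w := by
    intro w hw h
    have hw2 : Sp k z γ s g w := by
      by_contra hcon
      simp [hχdef, hcon] at h
    unfold Sp at hw2
    have h1 := term_le_Zb hk0 hz hq w s
    have h2 : Real.exp (-(z * q * s)) * Real.exp (z * γ * s + g) ≤ Zb k z q w :=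
      le_trans (mul_le_mul_of_nonneg_left hw2 (Real.exp_pos _).le) h1
    rw [← Real.exp_add] at h2
    have h3 := Real.log_le_log (Real.exp_pos _) h2
    rw [Real.log_exp] at h3
    unfold FE
    rw [hw]
    have h4 : γ = p + q := hpq.symm
    rw [h4] at h3
    linarith
  set N := ⌊Real.exp (g / 8)⌋₊ + 1 with hN
  have hN1 : Real.exp (g / 8) ≤ N := by
    rw [hN]; push_cast; exact (Nat.lt_floor_add_one _).le
  have hE1 : 1 ≤ Real.exp (g / 8) := Real.one_le_exp (by positivity)
  have hN2 : (N : ℝ) ≤ 2 * Real.exp (g / 8) := by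
    rw [hN]; push_cast
    have := Nat.floor_le (Real.exp_pos (g / 8)).le
    linarith
  have hsR : (s : ℝ) = r * n₀ := by rw [hs]; push_cast; ring
  have hs1 : (1 : ℝ) ≤ s := by rw [hsR]; nlinarith
  have hM : ((N * s : ℕ) : ℝ) ≤ 2 * (r * n₀) * Real.exp (g / 8) := by
    push_cast
    rw [hsR]
    have := mul_le_mul_of_nonneg_right hN2 (by positivity : (0 : ℝ) ≤ r * n₀)
    linarith
  have hM1 : ((N * s : ℕ) : ℝ) + 1 ≤ 4 * (r * n₀) * Real.exp (g / 8) := by
    have : 1 ≤ r * n₀ * Real.exp (g / 8) := by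
      rw [← hsR]; nlinarith
    linarith
  have hM2 : ((N * s : ℕ) : ℝ) + 2 ≤ 6 * (r * n₀) * Real.exp (g / 8) := by
    have : 1 ≤ r * n₀ * Real.exp (g / 8) := by
      rw [← hsR]; nlinarith
    linarith
  have hlM1 : Real.log (C₃ * ((N * s : ℕ) + 1)) ≤ g / 16 + g / 8 := by
    calc Real.log (C₃ * ((N * s : ℕ) + 1)) ≤ Real.log ((4 * C₃ * n₀ * r) * Real.exp (g / 8)) := by
          apply Real.log_le_log (by positivity)
          have := mul_le_mul_of_nonneg_left hM1 (by linarith : (0 : ℝ) ≤ C₃)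
          linarith
      _ = Real.log (4 * C₃ * n₀ * r) + g / 8 := by
          rw [Real.log_mul (by positivity) (Real.exp_pos _).ne', Real.log_exp]
      _ ≤ g / 16 + g / 8 := by
          have : g₀ / 16 * r = g / 16 := by rw [hg]; ring
          linarith
  have hlM2 : Real.log (((N * s : ℕ) : ℝ) + 2) ≤ g := by
    calc Real.log (((N * s : ℕ) : ℝ) + 2) ≤ Real.log ((6 * n₀ * r) * Real.exp (g / 8)) := by
          apply Real.log_le_log (by positivity)
          linarith
      _ = Real.log (6 * n₀ * r) + g / 8 := by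
          rw [Real.log_mul (by positivity) (Real.exp_pos _).ne', Real.log_exp]
      _ ≤ g := by
          have : g₀ / 16 * r = g / 16 := by rw [hg]; ring
          have hg0 : 0 < g := by positivity
          linarith
  have hhs : hh k z p q s ≤ g / 16 := by
    calc hh k z p q s ≤ Real.log (C₁ * (s + 1)) := hh1 s
      _ ≤ Real.log (2 * C₁ * n₀ * r) := by
          apply Real.log_le_log (by positivity)
          have : (s : ℝ) + 1 ≤ 2 * (r * n₀) := by linarith [hsR ▸ hs1]
          have := mul_le_mul_of_nonneg_left this (by linarith : (0 : ℝ) ≤ C₁)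
          linarith
      _ ≤ g / 16 := by
          have : g₀ / 16 * r = g / 16 := by rw [hg]; ring
          linarith
  have hA : 1 ≤ g - 2 * Real.log (C₃ * ((N * s : ℕ) + 1)) - hh k z p q s := by
    have : 2 ≤ g := hrg
    linarith
  have h1 := var_ge hk0 hC₃ hSB hSP χ hχ s g hgF N hA
  have h2 := hv (N * s)
  have h3 : (C₂ * Real.log (((N * s : ℕ) : ℝ) + 2)) ^ 2 ≤ (C₂ * g) ^ 2 := by
    apply pow_le_pow_left₀
    · apply mul_nonneg hC₂
      apply Real.log_nonneg
      have : (0 : ℝ) ≤ ((N * s : ℕ) : ℝ) := Nat.cast_nonneg _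
      linarith
    · exact mul_le_mul_of_nonneg_left hlM2 hC₂
  have h4 : Real.exp (3 * g₀ / 40 * r) ≤ N * Ex k s χ := by
    calc Real.exp (3 * g₀ / 40 * r) = Real.exp (g / 8) * Real.exp (-(g / 20)) := by
          rw [← Real.exp_add]; congr 1; rw [hg]; ring
      _ ≤ N * Ex k s χ := mul_le_mul hN1 hπ (Real.exp_pos _).le (Nat.cast_nonneg _)
  have h5 : 3 / 4 * Real.exp (3 * g₀ / 40 * r) ≤ (C₂ * g) ^ 2 := by
    have := mul_le_mul_of_nonneg_left h4 (by norm_num : (0 : ℝ) ≤ 3 / 4)
    linarith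
  have h6 : (C₂ * g) ^ 2 = 3 / 4 * (4 / 3 * (C₂ * g₀) ^ 2 * (r : ℝ) ^ 2) := by
    rw [hg]; ring
  rw [h6] at h5
  linarith

end Pool.Agent.LCSQ
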