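import Pool.Agent.Work.MP_bec1e1_Q_h57.MGF

/-! # The mean free energy is `O(√n log n)` (block H1) -/

set_option autoImplicit false

open scoped BigOperators

namespace Pool.Agent.LCSQ

open Pool.Agent.LCSE

variable {k : ℕ}

lemma logW_osc (hk : 0 < k) {z : ℝ} (hz : 0 < z) (n b : ℕ) (r : ℝ) :
    Osc k n (fun x => r + Real.log (W k z x b)) z := by
  have key : ∀ (w₁ w₂ : List (Fin k)) (a c : Fin k),
      Real.log (W k z (w₁ ++ a :: w₂) b) - Real.log (W k z (w₁ ++ c :: w₂) b) ≤ z := by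
    intro w₁ w₂ a c
    have h := Real.log_le_log (W_pos hk z _ b) (W_change hk hz.le w₁ w₂ a c b)
    rw [Real.log_mul (Real.exp_pos _).ne' (W_pos hk z _ b).ne', Real.log_exp] at h
    linarith
  intro w₁ w₂ a c _
  rw [abs_le]
  constructor
  · linarith [key w₁ w₂ c a]
  · linarith [key w₁ w₂ a c]

/-- the terms with many columns are negligible -/
lemma Zb_le_trunc (hk : 0 < k) {z q : ℝ} (hz : 0 < z) (hq : 0 < q) (x : List (Fin k)) (B : ℕ)
    (hB : 2 * (x.length : ℝ) / q ≤ B) :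
    Zb k z q x ≤ (1 + (1 - Real.exp (-(z * q / 2)))⁻¹) *
      ∑ b ∈ Finset.range (B + 1), Real.exp (-(z * q * b)) * W k z x b := by
  have hzq : 0 < z * q := mul_pos hz hq
  have hpos : 0 < 1 - Real.exp (-(z * q / 2)) := by
    have : Real.exp (-(z * q / 2)) < 1 := by
      rw [← Real.exp_zero]; exact Real.exp_lt_exp.mpr (by linarith)
    linarith
  have hsum := summable_Zb hk hz hq x
  have h1 : 1 ≤ ∑ b ∈ Finset.range (B + 1), Real.exp (-(z * q * b)) * W k z x b := by
    have h2 := Finset.single_le_sum (f := fun b : ℕ => Real.exp (-(z * q * b)) * W k z x b)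
      (fun b _ => mul_nonneg (Real.exp_pos _).le (W_pos hk z x b).le)
      (Finset.mem_range.mpr (Nat.succ_pos B))
    simpa [W_zero] using h2
  have h3 : ∑' b : ℕ, Real.exp (-(z * q * (b + (B + 1) : ℕ))) * W k z x (b + (B + 1)) ≤
      (1 - Real.exp (-(z * q / 2)))⁻¹ := by
    rw [← tsum_geom (half_pos hzq)]
    refine Summable.tsum_le_tsum (fun b => ?_) ((summable_nat_add_iff (B + 1)).mpr hsum)
      (summable_geom (half_pos hzq))
    have h4 := W_le_exp_left hk hz.le x (b + (B + 1))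
    calc Real.exp (-(z * q * (b + (B + 1) : ℕ))) * W k z x (b + (B + 1))
        ≤ Real.exp (-(z * q * (b + (B + 1) : ℕ))) * Real.exp (z * x.length) :=
          mul_le_mul_of_nonneg_left h4 (Real.exp_pos _).le
      _ ≤ Real.exp (-(z * q / 2 * b)) := by
          rw [← Real.exp_add]
          apply Real.exp_le_exp.mpr
          have h5 : 2 * (x.length : ℝ) ≤ q * B := by
            rw [div_le_iff₀ hq] at hB; linarith
          push_cast
          have h6 : z * (2 * (x.length : ℝ)) ≤ z * (q * B) := mul_le_mul_of_nonneg_left h5 hz.le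
          have h7 : 0 ≤ z * q * b := by positivity
          nlinarith
  have h8 := hsum.sum_add_tsum_nat_add (B + 1)
  unfold Zb
  rw [← h8]
  have h9 : (1 - Real.exp (-(z * q / 2)))⁻¹ ≤ (1 - Real.exp (-(z * q / 2)))⁻¹ *
      ∑ b ∈ Finset.range (B + 1), Real.exp (-(z * q * b)) * W k z x b :=
    le_mul_of_one_le_right (inv_nonneg.mpr hpos.le) h1
  linarith

theorem stmt_H1 : Stmt_H1 := by
  intro k γ z p q hQ
  have hk : 0 < k := by have := hQ.hk; omega
  have hz := hQ.hz
  have hq := hQ.hq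
  have hzq : 0 < z * q := mul_pos hz hq
  have hpos : 0 < 1 - Real.exp (-(z * q / 2)) := by
    have : Real.exp (-(z * q / 2)) < 1 := by
      rw [← Real.exp_zero]; exact Real.exp_lt_exp.mpr (by linarith)
    linarith
  set C₃ : ℝ := 1 + (1 - Real.exp (-(z * q / 2)))⁻¹ with hC₃
  have hC₃1 : 1 ≤ C₃ := by
    have : 0 < (1 - Real.exp (-(z * q / 2)))⁻¹ := inv_pos.mpr hpos
    linarith
  have hq2 : 0 < 2 / q := by positivity
  have hlog0 : 0 ≤ Real.log (2 / q + 2) := Real.log_nonneg (by linarith)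
  have hlogC : 0 ≤ Real.log C₃ := Real.log_nonneg hC₃1
  refine ⟨2 * Real.log C₃ + 2 * (2 * Real.log (2 / q + 2) + 1) + z ^ 2, by positivity, fun n => ?_⟩
  set B : ℕ := ⌈2 * (n : ℝ) / q⌉₊ with hB
  have hB1 : 2 * (n : ℝ) / q ≤ B := Nat.le_ceil _
  have hB2 : ((B : ℝ) + 1) ≤ (2 / q + 2) * (n + 1) := by
    have h1 : (B : ℝ) < 2 * (n : ℝ) / q + 1 := Nat.ceil_lt_add_one (by positivity)
    have h2 : 2 * (n : ℝ) / q = 2 / q * n := by ring
    rw [h2] at h1
    have h3 : (0 : ℝ) ≤ n := by positivity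
    nlinarith
  have hn1 : (0 : ℝ) < (n : ℝ) + 1 := by positivity
  set s : ℝ := 1 / Real.sqrt (n + 1) with hs
  have hsq : 0 < Real.sqrt ((n : ℝ) + 1) := Real.sqrt_pos.mpr hn1
  have hs0 : 0 < s := by positivity
  set G : ℕ → List (Fin k) → ℝ := fun b x => -(z * q * b) + Real.log (W k z x b) with hG
  have hEG : ∀ b, Ex k n (G b) = -(z * q * b) + LQ k z n b := by
    intro b
    simp only [hG]
    rw [Ex_add, Ex_const hk]
    rfl
  have hEG2 : ∀ b, Ex k n (G b) ≤ z * p * n := by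
    intro b
    rw [hEG]
    have := hQ.hPhi n b
    linarith
  set Y : List (Fin k) → ℝ := fun x =>
    ∑ b ∈ Finset.range (B + 1), Real.exp (s * (G b x - Ex k n (G b))) with hY
  have hYpos : ∀ x, 0 < Y x := fun x =>
    Finset.sum_pos (fun b _ => Real.exp_pos _) ⟨0, Finset.mem_range.mpr (Nat.succ_pos B)⟩
  have hEY : Ex k n Y ≤ ((B : ℝ) + 1) * Real.exp (s ^ 2 * z ^ 2 * n / 2) := by
    simp only [hY]
    rw [Ex_finset_sum]
    calc _ ≤ ∑ _b ∈ Finset.range (B + 1), Real.exp (s ^ 2 * z ^ 2 * n / 2) :=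
          Finset.sum_le_sum fun b _ => stmt_MGF k n (G b) z s hk hz.le (logW_osc hk hz n b _)
      _ = _ := by rw [Finset.sum_const, Finset.card_range, nsmul_eq_mul]; push_cast; ring
  have hElogY : Ex k n (fun x => Real.log (Y x)) ≤ Real.log ((B : ℝ) + 1) + s ^ 2 * z ^ 2 * n / 2 := by
    have h1 := Ex_exp_jensen hk n (fun x => Real.log (Y x))
    have h2 : Ex k n (fun x => Real.exp (Real.log (Y x))) = Ex k n Y :=
      Ex_congr fun x _ => Real.exp_log (hYpos x)
    rw [h2] at h1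
    have h3 := Real.log_le_log (Real.exp_pos _) (h1.trans hEY)
    rw [Real.log_exp, Real.log_mul (by positivity) (Real.exp_pos _).ne', Real.log_exp] at h3
    exact h3
  have hpt : ∀ x : List (Fin k), x.length = n → FE k z p q x ≤
      Real.log C₃ + Real.log ((B : ℝ) + 1) + (1 / s) * Real.log (Y x) := by
    intro x hx
    have h1 := Zb_le_trunc hk hz hq x B (by rw [hx]; exact hB1)
    have h2 : ∀ b ∈ Finset.range (B + 1), Real.exp (-(z * q * b)) * W k z x b ≤
        Real.exp (z * p * n + (1 / s) * Real.log (Y x)) := by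
      intro b hb
      have h3 : Real.exp (-(z * q * b)) * W k z x b = Real.exp (G b x) := by
        simp only [hG]
        rw [Real.exp_add, Real.exp_log (W_pos hk z x b)]
      rw [h3]
      apply Real.exp_le_exp.mpr
      have h4 : Real.exp (s * (G b x - Ex k n (G b))) ≤ Y x :=
        Finset.single_le_sum (f := fun b => Real.exp (s * (G b x - Ex k n (G b))))
          (fun i _ => (Real.exp_pos _).le) hb
      have h5 := Real.log_le_log (Real.exp_pos _) h4
      rw [Real.log_exp] at h5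
      have h6 : G b x - Ex k n (G b) ≤ 1 / s * Real.log (Y x) := by
        rw [one_div, ← div_eq_inv_mul, le_div_iff₀ hs0]; linarith
      linarith [hEG2 b]
    have h7 : ∑ b ∈ Finset.range (B + 1), Real.exp (-(z * q * b)) * W k z x b ≤
        ((B : ℝ) + 1) * Real.exp (z * p * n + (1 / s) * Real.log (Y x)) := by
      calc _ ≤ ∑ _b ∈ Finset.range (B + 1), Real.exp (z * p * n + (1 / s) * Real.log (Y x)) :=
            Finset.sum_le_sum h2
        _ = _ := by rw [Finset.sum_const, Finset.card_range, nsmul_eq_mul]; push_cast; ring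
    have h8 : Zb k z q x ≤ C₃ * (((B : ℝ) + 1) * Real.exp (z * p * n + (1 / s) * Real.log (Y x))) :=
      h1.trans (mul_le_mul_of_nonneg_left h7 (by linarith))
    have h9 := Real.log_le_log (Zb_pos hk hz hq x) h8
    rw [Real.log_mul (by linarith) (by positivity), Real.log_mul (by positivity)
      (Real.exp_pos _).ne', Real.log_exp] at h9
    unfold FE
    rw [hx]
    linarith
  have hmain : hh k z p q n ≤ Real.log C₃ + Real.log ((B : ℝ) + 1) +
      (1 / s) * (Real.log ((B : ℝ) + 1) + s ^ 2 * z ^ 2 * n / 2) := by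
    unfold hh
    calc Ex k n (FE k z p q) ≤ Ex k n (fun x => Real.log C₃ + Real.log ((B : ℝ) + 1) +
          (1 / s) * Real.log (Y x)) := Ex_mono hpt
      _ = Real.log C₃ + Real.log ((B : ℝ) + 1) + (1 / s) * Ex k n (fun x => Real.log (Y x)) := by
          rw [Ex_add, Ex_const hk, Ex_const_mul]
      _ ≤ _ := by
          have : 0 < 1 / s := by positivity
          linarith [mul_le_mul_of_nonneg_left hElogY this.le]
  have hs1 : 1 / s = Real.sqrt ((n : ℝ) + 1) := by rw [hs, one_div_one_div]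
  have hs2 : s ^ 2 * z ^ 2 * n / 2 ≤ z ^ 2 / 2 := by
    have h1 : s ^ 2 * n ≤ 1 := by
      rw [hs, div_pow, one_pow, Real.sq_sqrt hn1.le, one_div, inv_mul_le_iff₀ hn1]
      linarith
    nlinarith [sq_nonneg z]
  have hlogB : Real.log ((B : ℝ) + 1) ≤ Real.log (2 / q + 2) + Real.log (n + 2) := by
    have h1 := Real.log_le_log (by positivity) hB2
    rw [Real.log_mul (by positivity) hn1.ne'] at h1
    have h2 := Real.log_le_log hn1 (show (n : ℝ) + 1 ≤ n + 2 by linarith)
    linarith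
  have hl2 : (1 : ℝ) / 2 ≤ Real.log (n + 2) := by
    have h1 : Real.log 2 ≤ Real.log ((n : ℝ) + 2) :=
      Real.log_le_log (by norm_num) (by linarith [Nat.cast_nonneg (α := ℝ) n])
    linarith [Real.log_two_gt_d9]
  have hr1 : 1 ≤ Real.sqrt ((n : ℝ) + 1) := by
    rw [Real.one_le_sqrt]; linarith [Nat.cast_nonneg (α := ℝ) n]
  rw [hs1] at hmain
  set R := Real.sqrt ((n : ℝ) + 1) with hR
  set ℓ := Real.log ((n : ℝ) + 2) with hℓ
  have e1 : Real.log C₃ ≤ 2 * Real.log C₃ * R * ℓ := by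
    have : 1 ≤ 2 * (R * ℓ) := by nlinarith
    nlinarith
  have e2 : Real.log ((B : ℝ) + 1) ≤ (2 * Real.log (2 / q + 2) + 1) * ℓ := by
    nlinarith
  have e3 : Real.log ((B : ℝ) + 1) ≤ (2 * Real.log (2 / q + 2) + 1) * R * ℓ := by
    have : 0 ≤ (2 * Real.log (2 / q + 2) + 1) * ℓ := by positivity
    nlinarith
  have e4 : R * Real.log ((B : ℝ) + 1) ≤ (2 * Real.log (2 / q + 2) + 1) * R * ℓ := by
    nlinarith
  have e5 : R * (s ^ 2 * z ^ 2 * n / 2) ≤ z ^ 2 * R * ℓ := by
    have h1 : R * (s ^ 2 * z ^ 2 * n / 2) ≤ R * (z ^ 2 / 2) :=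
      mul_le_mul_of_nonneg_left hs2 (by linarith)
    have h2 : z ^ 2 * R * (1 / 2) ≤ z ^ 2 * R * ℓ :=
      mul_le_mul_of_nonneg_left hl2 (by positivity)
    linarith
  calc hh k z p q n ≤ _ := hmain
    _ ≤ (2 * Real.log C₃ + 2 * (2 * Real.log (2 / q + 2) + 1) + z ^ 2) * R * ℓ := by
        rw [mul_add R]
        linarith

end Pool.Agent.LCSQ
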