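import Pool.Agent.Work.MP_bec1e1_Q_h57.Interface

/-! # The mean free energy is at most `log (C (n+1))` (block H2) -/

set_option autoImplicit false

open scoped BigOperators

namespace Pool.Agent.LCSQ

open Pool.Agent.LCSE

variable {k : ℕ}

lemma hh_append (hk : 0 < k) (z p q : ℝ) (a b : ℕ) :
    Ex k a (fun x₁ => Ex k b (fun x₂ => FE k z p q x₁ + FE k z p q x₂)) =
      hh k z p q a + hh k z p q b := by
  have h1 : ∀ u : List (Fin k), Ex k b (fun x₂ => FE k z p q u + FE k z p q x₂) =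
      FE k z p q u + hh k z p q b := fun u => by
    rw [Ex_add, Ex_const hk]; rfl
  simp only [h1]
  rw [Ex_add, Ex_const hk]
  rfl

/-- superadditivity of the mean up to a logarithm -/
lemma hh_super (hk : 0 < k) {z p q C : ℝ}
    (hC : ∀ x₁ x₂ : List (Fin k), FE k z p q x₁ + FE k z p q x₂ -
      Real.log (C * (x₁.length + x₂.length + 1)) ≤ FE k z p q (x₁ ++ x₂)) (a b : ℕ) :
    hh k z p q a + hh k z p q b - Real.log (C * (a + b + 1)) ≤ hh k z p q (a + b) := by
  have h1 : hh k z p q (a + b) = Ex k a (fun x₁ => Ex k b (fun x₂ => FE k z p q (x₁ ++ x₂))) := by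
    unfold hh; rw [Ex_append]
  rw [h1, ← hh_append hk]
  have h2 : Ex k a (fun x₁ => Ex k b (fun x₂ => FE k z p q x₁ + FE k z p q x₂)) -
      Real.log (C * (a + b + 1)) = Ex k a (fun x₁ => Ex k b (fun x₂ =>
        FE k z p q x₁ + FE k z p q x₂ - Real.log (C * (a + b + 1)))) := by
    have : ∀ u : List (Fin k), Ex k b (fun x₂ => FE k z p q u + FE k z p q x₂ -
        Real.log (C * (a + b + 1))) = Ex k b (fun x₂ => FE k z p q u + FE k z p q x₂) -
        Real.log (C * (a + b + 1)) := fun u => by rw [Ex_sub, Ex_const hk]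
    simp only [this]
    rw [Ex_sub, Ex_const hk]
  rw [h2]
  refine Ex_mono fun u hu => Ex_mono fun v hv => ?_
  have := hC u v
  rwa [hu, hv] at this

/-- subadditivity of the mean -/
lemma hh_sub (hk : 0 < k) {z p q : ℝ}
    (hS : ∀ x₁ x₂ : List (Fin k), FE k z p q (x₁ ++ x₂) ≤ FE k z p q x₁ + FE k z p q x₂)
    (a b : ℕ) : hh k z p q (a + b) ≤ hh k z p q a + hh k z p q b := by
  have h1 : hh k z p q (a + b) = Ex k a (fun x₁ => Ex k b (fun x₂ => FE k z p q (x₁ ++ x₂))) := by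
    unfold hh; rw [Ex_append]
  rw [h1, ← hh_append hk]
  exact Ex_mono fun u _ => Ex_mono fun v _ => hS u v

lemma sqrt_log_bound (n j : ℕ) (hn : 1 ≤ n) :
    Real.sqrt (((16 ^ j * n : ℕ) : ℝ) + 1) * Real.log (((16 ^ j * n : ℕ) : ℝ) + 2) ≤
      16 * (n : ℝ) ^ 2 * 8 ^ j := by
  have hn' : (1 : ℝ) ≤ n := by exact_mod_cast hn
  have h16 : (1 : ℝ) ≤ 16 ^ j := one_le_pow₀ (by norm_num)
  set y : ℝ := ((16 ^ j * n : ℕ) : ℝ) + 2 with hy
  have hy2 : y = 16 ^ j * n + 2 := by rw [hy]; push_cast; ring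
  have e4 : ((4 : ℝ) ^ j) ^ 2 = 16 ^ j := by rw [← pow_mul, mul_comm, pow_mul]; norm_num
  have e2 : ((2 : ℝ) ^ j) ^ 2 = 4 ^ j := by rw [← pow_mul, mul_comm, pow_mul]; norm_num
  have h1 : y ≤ (2 * 4 ^ j * n) ^ 2 := by
    rw [hy2, mul_pow, mul_pow, e4]
    nlinarith [mul_le_mul h16 hn' (by norm_num) (by positivity)]
  have h2 : Real.sqrt y ≤ 2 * 4 ^ j * n := by
    rw [Real.sqrt_le_left (by positivity)]; exact h1
  have h4 : (1 : ℝ) ≤ 4 ^ j := one_le_pow₀ (by norm_num)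
  have h3 : 2 * 4 ^ j * (n : ℝ) ≤ (2 * 2 ^ j * n) ^ 2 := by
    rw [mul_pow, mul_pow, e2]
    nlinarith [mul_le_mul h4 hn' (by norm_num) (by positivity)]
  have h5 : Real.sqrt (Real.sqrt y) ≤ 2 * 2 ^ j * n := by
    rw [Real.sqrt_le_left (by positivity)]; exact h2.trans h3
  have hy0 : 0 < y := by rw [hy]; positivity
  have hs0 : 0 < Real.sqrt y := Real.sqrt_pos.mpr hy0
  have hss0 : 0 < Real.sqrt (Real.sqrt y) := Real.sqrt_pos.mpr hs0
  have h6 : Real.log y ≤ 4 * Real.sqrt (Real.sqrt y) := by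
    have e : y = Real.sqrt (Real.sqrt y) ^ 4 := by
      rw [show (4 : ℕ) = 2 * 2 by norm_num, pow_mul, Real.sq_sqrt hs0.le, Real.sq_sqrt hy0.le]
    have h7 : Real.log y = 4 * Real.log (Real.sqrt (Real.sqrt y)) := by
      conv_lhs => rw [e]
      rw [Real.log_pow]; norm_num
    rw [h7]
    have := Real.log_le_sub_one_of_pos hss0
    linarith
  have h8 : Real.sqrt (((16 ^ j * n : ℕ) : ℝ) + 1) ≤ Real.sqrt y :=
    Real.sqrt_le_sqrt (by rw [hy]; linarith)
  have hlog0 : 0 ≤ Real.log y := Real.log_nonneg (by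
    rw [hy]; have : (0 : ℝ) ≤ ((16 ^ j * n : ℕ) : ℝ) := Nat.cast_nonneg _
    linarith)
  have e8 : (4 : ℝ) ^ j * 2 ^ j = 8 ^ j := by rw [← mul_pow]; norm_num
  calc _ ≤ Real.sqrt y * Real.log y := mul_le_mul_of_nonneg_right h8 hlog0
    _ ≤ (2 * 4 ^ j * n) * (4 * (2 * 2 ^ j * n)) := by
        apply mul_le_mul h2 (h6.trans (by linarith)) hlog0 (by positivity)
    _ = 16 * (n : ℝ) ^ 2 * (4 ^ j * 2 ^ j) := by ring
    _ = _ := by rw [e8]

theorem stmt_H2 (hSUP : Stmt_SUP) (hH1 : Stmt_H1) : Stmt_H2 := by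
  intro k γ z p q hQ
  have hk : 0 < k := by have := hQ.hk; omega
  obtain ⟨C, hC1, hC⟩ := hSUP k z p q hk hQ.hz hQ.hq
  obtain ⟨C', hC'0, hC'⟩ := hH1 k γ z p q hQ
  have hdouble : ∀ n : ℕ, 2 * hh k z p q n - Real.log (C * (2 * n + 1)) ≤ hh k z p q (2 * n) := by
    intro n
    have h := hh_super hk hC n n
    rw [← two_mul, ← two_mul, ← two_mul] at h
    exact h
  set D : ℕ → ℝ := fun n => hh k z p q n - Real.log (C * (2 * n + 1)) - Real.log 2 with hD
  have hD2 : ∀ n, 2 * D n ≤ D (2 * n) := by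
    intro n
    have h1 := hdouble n
    have h2 : Real.log (C * (2 * ((2 * n : ℕ) : ℝ) + 1)) ≤ Real.log (C * (2 * n + 1)) + Real.log 2 := by
      rw [← Real.log_mul (by positivity) (by norm_num)]
      apply Real.log_le_log (by positivity)
      push_cast
      nlinarith
    simp only [hD]
    linarith
  have hDpow : ∀ i n : ℕ, 2 ^ i * D n ≤ D (2 ^ i * n) := by
    intro i n
    induction i with
    | zero => simp
    | succ i ih =>
      have h := hD2 (2 ^ i * n)
      have e : 2 ^ (i + 1) * n = 2 * (2 ^ i * n) := by ring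
      rw [e, pow_succ]
      linarith
  have hDle : ∀ n, D n ≤ 0 := by
    intro n
    by_contra hpos
    push Not at hpos
    rcases Nat.eq_zero_or_pos n with rfl | hn
    · have := hD2 0
      simp only [mul_zero] at this
      linarith
    · have h16 : ∀ j : ℕ, 2 ^ j * D n ≤ 16 * C' * (n : ℝ) ^ 2 := by
        intro j
        have h1 := hDpow (4 * j) n
        have e : 2 ^ (4 * j) * n = 16 ^ j * n := by rw [pow_mul]; norm_num
        rw [e] at h1
        have h2 : D (16 ^ j * n) ≤ C' * Real.sqrt (((16 ^ j * n : ℕ) : ℝ) + 1) *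
            Real.log (((16 ^ j * n : ℕ) : ℝ) + 2) := by
          have h3 := hC' (16 ^ j * n)
          have h4 : 0 ≤ Real.log (C * (2 * ((16 ^ j * n : ℕ) : ℝ) + 1)) := by
            apply Real.log_nonneg
            have : (0 : ℝ) ≤ ((16 ^ j * n : ℕ) : ℝ) := Nat.cast_nonneg _
            nlinarith
          have h5 : 0 ≤ Real.log 2 := Real.log_nonneg (by norm_num)
          simp only [hD]
          linarith
        have h6 := sqrt_log_bound n j hn
        have h7 : C' * (Real.sqrt (((16 ^ j * n : ℕ) : ℝ) + 1) *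
            Real.log (((16 ^ j * n : ℕ) : ℝ) + 2)) ≤ C' * (16 * (n : ℝ) ^ 2 * 8 ^ j) :=
          mul_le_mul_of_nonneg_left h6 hC'0
        have e2 : (2 : ℝ) ^ (4 * j) = 2 ^ j * 8 ^ j := by
          rw [pow_mul, ← mul_pow]; norm_num
        rw [e2] at h1
        have h8 : (0 : ℝ) < 8 ^ j := by positivity
        have h9 : 8 ^ j * (2 ^ j * D n) ≤ 8 ^ j * (16 * C' * (n : ℝ) ^ 2) := by
          calc (8 : ℝ) ^ j * (2 ^ j * D n) = 2 ^ j * 8 ^ j * D n := by ring
            _ ≤ D (16 ^ j * n) := h1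
            _ ≤ _ := h2
            _ ≤ C' * (16 * (n : ℝ) ^ 2 * 8 ^ j) := by rw [mul_assoc]; exact h7
            _ = _ := by ring
        exact le_of_mul_le_mul_left h9 h8
      obtain ⟨j, hj⟩ := pow_unbounded_of_one_lt (16 * C' * (n : ℝ) ^ 2 / D n) (by norm_num : (1 : ℝ) < 2)
      rw [div_lt_iff₀ hpos] at hj
      linarith [h16 j]
  refine ⟨4 * C, by linarith, fun n => ?_⟩
  have h1 := hDle n
  simp only [hD] at h1
  have h2 : Real.log (C * (2 * n + 1)) + Real.log 2 ≤ Real.log (4 * C * (n + 1)) := by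
    rw [← Real.log_mul (by positivity) (by norm_num)]
    apply Real.log_le_log (by positivity)
    nlinarith
  linarith

end Pool.Agent.LCSQ
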