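import Pool.Agent.Work.MP_bec1e1_Q_h57.Interface

/-! # Existence of a supporting price (block PR) -/

set_option autoImplicit false

open scoped BigOperators
open Filter Topology

namespace Pool.Agent.LCSQ

open Pool.Agent.LCSE

variable {k : ℕ}

lemma LQ_super (hk : 0 < k) {z : ℝ} (hz : 0 ≤ z) (a b a' b' : ℕ) :
    LQ k z a b + LQ k z a' b' ≤ LQ k z (a + a') (b + b') := by
  unfold LQ
  rw [Ex_append]
  have h : Ex k a (fun x => Real.log (W k z x b)) + Ex k a' (fun x => Real.log (W k z x b')) =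
      Ex k a (fun u => Ex k a' (fun v => Real.log (W k z u b) + Real.log (W k z v b'))) := by
    have h1 : ∀ u : List (Fin k), Ex k a' (fun v => Real.log (W k z u b) +
        Real.log (W k z v b')) = Real.log (W k z u b) +
        Ex k a' (fun x => Real.log (W k z x b')) := fun u => by
      rw [Ex_add, Ex_const hk]
    simp only [h1]
    rw [Ex_add, Ex_const hk]
  rw [h]
  refine Ex_mono fun u _ => Ex_mono fun v _ => ?_
  rw [← Real.log_mul (W_pos hk z u b).ne' (W_pos hk z v b').ne']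
  exact Real.log_le_log (mul_pos (W_pos hk z u b) (W_pos hk z v b')) (W_mul_le hk hz u v b b')

lemma LQ_nonneg (hk : 0 < k) {z : ℝ} (hz : 0 ≤ z) (a b : ℕ) : 0 ≤ LQ k z a b :=
  Ex_nonneg fun x _ => Real.log_nonneg (one_le_W hk hz x b)

lemma LQ_zero_right (hk : 0 < k) (z : ℝ) (a : ℕ) : LQ k z a 0 = 0 := by
  unfold LQ
  simp [W_zero, Ex_const hk]

lemma LQ_nsmul (hk : 0 < k) {z : ℝ} (hz : 0 ≤ z) (m a b : ℕ) :
    (m : ℝ) * LQ k z a b ≤ LQ k z (m * a) (m * b) := by
  induction m with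
  | zero => simp [LQ_nonneg hk hz]
  | succ m ih =>
    have h := LQ_super hk hz (m * a) (m * b) a b
    have e1 : (m + 1) * a = m * a + a := by ring
    have e2 : (m + 1) * b = m * b + b := by ring
    rw [e1, e2]
    push_cast
    linarith

/-- mean of `L [c] y` -/
lemma mean_single (hk : 0 < k) (c : Fin k) (b : ℕ) :
    1 - (1 - 1 / (k : ℝ)) ^ b ≤ Ex k b (fun y => (L [c] y : ℝ)) := by
  have hk' : (0 : ℝ) < k := by exact_mod_cast hk
  have hk1 : 1 / (k : ℝ) ≤ 1 := by
    rw [div_le_one hk']; exact_mod_cast hk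
  induction b with
  | zero => simp
  | succ b ih =>
    set g := Ex k b (fun y => (L [c] y : ℝ)) with hg
    rw [Ex_succ]
    have h1 : ∀ d : Fin k, (if d = c then (1 : ℝ) else g) ≤
        Ex k b (fun w => (L [c] (d :: w) : ℝ)) := by
      intro d
      split_ifs with hd
      · subst hd
        refine const_le_Ex hk fun w _ => ?_
        have := L_cons_cons_self d [] w
        simp only [L_nil_left, zero_add] at this
        exact_mod_cast this
      · exact Ex_mono fun w _ => by exact_mod_cast L_cons_right d [c] w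
    have h2 : ∑ d : Fin k, (if d = c then (1 : ℝ) else g) = 1 + (k - 1) * g := by
      have : ∀ d : Fin k, (if d = c then (1 : ℝ) else g) = g + (if d = c then (1 - g) else 0) := by
        intro d; split_ifs <;> ring
      simp only [this]
      rw [Finset.sum_add_distrib, Finset.sum_ite_eq' Finset.univ c]
      simp only [Finset.sum_const, Finset.card_univ, Fintype.card_fin, nsmul_eq_mul,
        Finset.mem_univ, if_true]
      ring
    have h3 : (1 + (k - 1) * g) / k ≤ (∑ d : Fin k, Ex k b (fun w => (L [c] (d :: w) : ℝ))) / k := by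
      apply div_le_div_of_nonneg_right _ hk'.le
      rw [← h2]
      exact Finset.sum_le_sum fun d _ => h1 d
    refine le_trans ?_ h3
    have h4 : (1 + ((k : ℝ) - 1) * g) / k = 1 / k + (1 - 1 / k) * g := by
      field_simp
    rw [h4, pow_succ]
    nlinarith

lemma exists_LQ_gt (hk : 2 ≤ k) {γ z : ℝ} (hγ : γ < 1) (hz : 0 < z) :
    ∃ b : ℕ, 1 < b ∧ z * γ < LQ k z 1 b := by
  have hk0 : 0 < k := by omega
  have hk' : (2 : ℝ) ≤ k := by exact_mod_cast hk
  have hr0 : 0 ≤ 1 - 1 / (k : ℝ) := by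
    have : 1 / (k : ℝ) ≤ 1 := by rw [div_le_one (by linarith)]; linarith
    linarith
  have hr1 : 1 - 1 / (k : ℝ) < 1 := by
    have : 0 < 1 / (k : ℝ) := by positivity
    linarith
  have ht := tendsto_pow_atTop_nhds_zero_of_lt_one hr0 hr1
  have hev : ∀ᶠ b : ℕ in atTop, (1 - 1 / (k : ℝ)) ^ b < 1 - γ :=
    ht.eventually (gt_mem_nhds (by linarith))
  obtain ⟨b, hb1, hb2⟩ := (hev.and (eventually_gt_atTop 1)).exists
  refine ⟨b, hb2, ?_⟩
  have h1 : z * (1 - (1 - 1 / (k : ℝ)) ^ b) ≤ LQ k z 1 b := by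
    unfold LQ
    refine const_le_Ex hk0 fun x hx => ?_
    obtain ⟨c, rfl⟩ := List.length_eq_one_iff.mp hx
    have h2 := exp_mean_le_W hk0 z [c] b
    have h3 := Real.log_le_log (Real.exp_pos _) h2
    rw [Real.log_exp] at h3
    have h4 := mean_single hk0 c b
    nlinarith
  nlinarith

theorem stmt_PR : Stmt_PR := by
  intro k γ z hk hγ0 hγ hz hdiag
  have hk0 : 0 < k := by omega
  set Φ : ℕ → ℕ → ℝ := fun a b => LQ k z a b with hΦ
  have key : ∀ a b a' b' : ℕ, a < b → b' < a' →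
      (Φ a b - z * γ * a) / ((b : ℝ) - a) ≤ (z * γ * a' - Φ a' b') / ((a' : ℝ) - b') := by
    intro a b a' b' hab hab'
    obtain ⟨m', rfl⟩ := Nat.exists_eq_add_of_lt hab
    obtain ⟨m, rfl⟩ := Nat.exists_eq_add_of_lt hab'
    have h1 := LQ_nsmul hk0 hz.le (m + 1) a (a + m' + 1)
    have h2 := LQ_nsmul hk0 hz.le (m' + 1) (b' + m + 1) b'
    have h3 := LQ_super hk0 hz.le ((m + 1) * a) ((m + 1) * (a + m' + 1))
      ((m' + 1) * (b' + m + 1)) ((m' + 1) * b')
    have e : (m + 1) * (a + m' + 1) + (m' + 1) * b' = (m + 1) * a + (m' + 1) * (b' + m + 1) := by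
      ring
    rw [e] at h3
    have h4 := hdiag ((m + 1) * a + (m' + 1) * (b' + m + 1))
    have e1 : (((a + m' + 1 : ℕ) : ℝ) - a) = m' + 1 := by push_cast; ring
    have e2 : (((b' + m + 1 : ℕ) : ℝ) - b') = m + 1 := by push_cast; ring
    rw [e1, e2, div_le_div_iff₀ (by positivity) (by positivity)]
    simp only [hΦ]
    push_cast at h1 h2 h3 h4 ⊢
    nlinarith
  set S : Set ℝ := {s | ∃ a b : ℕ, a < b ∧ s = (Φ a b - z * γ * a) / ((b : ℝ) - a)} with hS
  have hbdd : BddAbove S := by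
    refine ⟨(z * γ * (1 : ℕ) - Φ 1 0) / (((1 : ℕ) : ℝ) - (0 : ℕ)), ?_⟩
    rintro s ⟨a, b, hab, rfl⟩
    exact key a b 1 0 hab one_pos
  obtain ⟨b₀, hb₀, hgt⟩ := exists_LQ_gt hk hγ hz
  have hb₀' : (1 : ℝ) < b₀ := by exact_mod_cast hb₀
  have hmem : (Φ 1 b₀ - z * γ * (1 : ℕ)) / ((b₀ : ℝ) - (1 : ℕ)) ∈ S := ⟨1, b₀, hb₀, rfl⟩
  have hQ : 0 < sSup S := by
    refine lt_of_lt_of_le ?_ (le_csSup hbdd hmem)
    apply div_pos
    · simp only [hΦ]; push_cast; linarith
    · push_cast; linarith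
  refine ⟨γ - sSup S / z, sSup S / z, by positivity, by ring, fun a b => ?_⟩
  have hz' : z * (sSup S / z) = sSup S := by field_simp
  have hgoal : z * ((γ - sSup S / z) * a + sSup S / z * b) = z * γ * a + sSup S * (b - a) := by
    calc z * ((γ - sSup S / z) * a + sSup S / z * b)
        = z * γ * a + z * (sSup S / z) * (b - a) := by ring
      _ = _ := by rw [hz']
  rw [hgoal]
  rcases lt_trichotomy a b with h | h | h
  · have h1 : (Φ a b - z * γ * a) / ((b : ℝ) - a) ≤ sSup S := le_csSup hbdd ⟨a, b, h, rfl⟩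
    have h2 : (0 : ℝ) < (b : ℝ) - a := by
      have : (a : ℝ) < b := by exact_mod_cast h
      linarith
    rw [div_le_iff₀ h2] at h1
    simp only [hΦ] at h1
    linarith
  · subst h
    have := hdiag a
    linarith [mul_comm (sSup S) ((a : ℝ) - a), sub_self (a : ℝ), mul_zero (sSup S)]
  · have h2 : (0 : ℝ) < (a : ℝ) - b := by
      have : (b : ℝ) < a := by exact_mod_cast h
      linarith
    have h1 : sSup S ≤ (z * γ * a - Φ a b) / ((a : ℝ) - b) := by
      refine csSup_le ⟨_, hmem⟩ ?_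
      rintro s ⟨a', b', hab, rfl⟩
      exact key a' b' a b hab h
    rw [le_div_iff₀ h2] at h1
    simp only [hΦ] at h1
    linarith

end Pool.Agent.LCSQ
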