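import Pool.Agent.Work.MP_bec1e1_Q_h57.H2

/-! # The variance of the free energy is linear or `O(log²)` (block VARA) -/

set_option autoImplicit false

open scoped BigOperators
open Filter Topology

namespace Pool.Agent.LCSQ

open Pool.Agent.LCSE

variable {k : ℕ}

/-- `(E |g|)² ≤ E g²` -/
lemma Ex_abs_sq_le (hk : 0 < k) (n : ℕ) (g : List (Fin k) → ℝ) :
    (Ex k n (fun w => |g w|)) ^ 2 ≤ Ex k n (fun w => g w ^ 2) := by
  set m := Ex k n (fun w => |g w|) with hm
  have h : 0 ≤ Ex k n (fun w => (|g w| - m) ^ 2) := Ex_nonneg fun w _ => sq_nonneg _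
  have h2 : Ex k n (fun w => (|g w| - m) ^ 2) = Ex k n (fun w => g w ^ 2) - m ^ 2 := by
    have e : ∀ w : List (Fin k), w.length = n → (|g w| - m) ^ 2 =
        g w ^ 2 + ((-2 * m) * |g w| + m ^ 2) := fun w _ => by
      rw [← sq_abs (g w)]; ring
    rw [Ex_congr e, Ex_add, Ex_add, Ex_const_mul, Ex_const hk, ← hm]
    ring
  linarith

lemma Ex_abs_le_sqrt (hk : 0 < k) (n : ℕ) (g : List (Fin k) → ℝ) :
    Ex k n (fun w => |g w|) ≤ Real.sqrt (Ex k n (fun w => g w ^ 2)) :=
  Real.le_sqrt_of_sq_le (Ex_abs_sq_le hk n g)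

lemma vv_nonneg (z p q : ℝ) (n : ℕ) : 0 ≤ vv k z p q n := Ex_nonneg fun _ _ => sq_nonneg _

lemma vv_zero (z p q : ℝ) : vv k z p q 0 = 0 := by simp [vv, hh]

lemma mean_centered (hk : 0 < k) (z p q : ℝ) (n : ℕ) :
    Ex k n (fun x => FE k z p q x - hh k z p q n) = 0 := by
  rw [Ex_sub, Ex_const hk]
  exact sub_self _

/-- the basic recursion for the standard deviation -/
lemma vv_rec (hk : 0 < k) {z p q C : ℝ} (hC1 : 1 ≤ C)
    (hS : ∀ x₁ x₂ : List (Fin k), FE k z p q (x₁ ++ x₂) ≤ FE k z p q x₁ + FE k z p q x₂)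
    (hC : ∀ x₁ x₂ : List (Fin k), FE k z p q x₁ + FE k z p q x₂ -
      Real.log (C * (x₁.length + x₂.length + 1)) ≤ FE k z p q (x₁ ++ x₂)) (a b : ℕ) :
    vv k z p q a + vv k z p q b ≤
      (Real.sqrt (vv k z p q (a + b)) + Real.log (C * (a + b + 1))) ^ 2 := by
  set ℓ := Real.log (C * (a + b + 1)) with hℓ
  have hℓ0 : 0 ≤ ℓ := Real.log_nonneg (by
    have : (0 : ℝ) ≤ a := Nat.cast_nonneg _
    have : (0 : ℝ) ≤ b := Nat.cast_nonneg _
    nlinarith)
  set G : List (Fin k) → ℝ := fun x => FE k z p q x - hh k z p q (a + b) with hG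
  have hvab : vv k z p q (a + b) = Ex k (a + b) (fun x => G x ^ 2) := rfl
  have hsum : vv k z p q a + vv k z p q b = Ex k a (fun u => Ex k b (fun v =>
      ((FE k z p q u - hh k z p q a) + (FE k z p q v - hh k z p q b)) ^ 2)) := by
    have e : ∀ u : List (Fin k), Ex k b (fun v =>
        ((FE k z p q u - hh k z p q a) + (FE k z p q v - hh k z p q b)) ^ 2) =
        (FE k z p q u - hh k z p q a) ^ 2 + vv k z p q b := by
      intro u
      have e1 : ∀ v : List (Fin k), v.length = b →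
          ((FE k z p q u - hh k z p q a) + (FE k z p q v - hh k z p q b)) ^ 2 =
          (FE k z p q u - hh k z p q a) ^ 2 + ((2 * (FE k z p q u - hh k z p q a)) *
            (FE k z p q v - hh k z p q b) + (FE k z p q v - hh k z p q b) ^ 2) :=
        fun v _ => by ring
      rw [Ex_congr e1, Ex_add, Ex_add, Ex_const hk, Ex_const_mul, mean_centered hk]
      unfold vv
      ring
    simp only [e]
    rw [Ex_add, Ex_const hk]
    rfl
  have hsub := hh_sub hk hS a b
  have hsup := hh_super hk hC a b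
  rw [← hℓ] at hsup
  have hpt : ∀ u v : List (Fin k), u.length = a → v.length = b →
      ((FE k z p q u - hh k z p q a) + (FE k z p q v - hh k z p q b)) ^ 2 ≤
      G (u ++ v) ^ 2 + (2 * ℓ * |G (u ++ v)| + ℓ ^ 2) := by
    intro u v hu hv
    have h1 := hS u v
    have h2 := hC u v
    rw [hu, hv, ← hℓ] at h2
    set A := (FE k z p q u - hh k z p q a) + (FE k z p q v - hh k z p q b) with hA
    have h3 : |A - G (u ++ v)| ≤ ℓ := by
      rw [abs_le]
      simp only [hG, hA]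
      constructor <;> linarith
    have h4 : |A| ≤ |G (u ++ v)| + ℓ := by
      calc |A| = |G (u ++ v) + (A - G (u ++ v))| := by ring_nf
        _ ≤ |G (u ++ v)| + |A - G (u ++ v)| := abs_add_le _ _
        _ ≤ _ := by linarith
    calc A ^ 2 = |A| ^ 2 := (sq_abs A).symm
      _ ≤ (|G (u ++ v)| + ℓ) ^ 2 := pow_le_pow_left₀ (abs_nonneg _) h4 2
      _ = G (u ++ v) ^ 2 + (2 * ℓ * |G (u ++ v)| + ℓ ^ 2) := by
          rw [← sq_abs (G (u ++ v))]; ring
  have h5 : vv k z p q a + vv k z p q b ≤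
      Ex k (a + b) (fun x => G x ^ 2 + (2 * ℓ * |G x| + ℓ ^ 2)) := by
    rw [hsum, Ex_append]
    exact Ex_mono fun u hu => Ex_mono fun v hv => hpt u v hu hv
  rw [Ex_add, Ex_add, Ex_const_mul, Ex_const hk, ← hvab] at h5
  have h6 := Ex_abs_le_sqrt hk (a + b) G
  rw [← hvab] at h6
  have h7 : Real.sqrt (vv k z p q (a + b)) ^ 2 = vv k z p q (a + b) :=
    Real.sq_sqrt (vv_nonneg z p q _)
  nlinarith [mul_le_mul_of_nonneg_left h6 hℓ0]

theorem stmt_VARA (hSUB : Stmt_SUB) (hSUP : Stmt_SUP) : Stmt_VARA := by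
  intro k γ z p q hQ
  have hk : 0 < k := by have := hQ.hk; omega
  have hS := hSUB k z p q hk hQ.hz hQ.hq
  obtain ⟨C, hC1, hC⟩ := hSUP k z p q hk hQ.hz hQ.hq
  have hrec := fun a b => vv_rec hk hC1 hS hC a b
  set S : ℕ → ℝ := fun n => Real.sqrt (vv k z p q n) with hSdef
  have hS0 : ∀ n, 0 ≤ S n := fun n => Real.sqrt_nonneg _
  have hSsq : ∀ n, S n ^ 2 = vv k z p q n := fun n => Real.sq_sqrt (vv_nonneg z p q n)
  have hlog0 : ∀ n : ℕ, 0 ≤ Real.log (C * (n + 1)) := fun n => Real.log_nonneg (by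
    have : (0 : ℝ) ≤ n := Nat.cast_nonneg _
    nlinarith)
  set E : ℕ → ℝ := fun n => S n - 3 * Real.log (C * (n + 1)) - 7 with hE
  have h2pos : (1.414 : ℝ) < Real.sqrt 2 := by
    rw [Real.lt_sqrt (by norm_num)]; norm_num
  have hsq2 : Real.sqrt 2 ^ 2 = 2 := Real.sq_sqrt (by norm_num)
  have hdouble : ∀ n, Real.sqrt 2 * E n ≤ E (2 * n) := by
    intro n
    have h1 := hrec n n
    have e1 : vv k z p q n + vv k z p q n = (Real.sqrt 2 * S n) ^ 2 := by
      rw [mul_pow, hsq2, hSsq]; ring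
    have h3 : (0 : ℝ) ≤ n := Nat.cast_nonneg _
    rw [e1] at h1
    have h4 : Real.sqrt 2 * S n ≤ S (n + n) + Real.log (C * (n + n + 1)) := by
      apply le_of_sq_le_sq h1
      have : 0 ≤ Real.log (C * ((n : ℝ) + n + 1)) := Real.log_nonneg (by nlinarith)
      linarith [hS0 (n + n)]
    have h5 : Real.log (C * ((n : ℝ) + n + 1)) ≤ Real.log (C * (n + 1)) + Real.log 2 := by
      rw [← Real.log_mul (by positivity) (by norm_num)]
      apply Real.log_le_log (by positivity)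
      nlinarith
    have e2 : Real.log (C * (((2 * n : ℕ) : ℝ) + 1)) = Real.log (C * ((n : ℝ) + n + 1)) := by
      congr 1; push_cast; ring
    have e3 : S (2 * n) = S (n + n) := by rw [two_mul]
    simp only [hE]
    rw [e2, e3]
    have h6 := hlog0 n
    have h7 : Real.log 2 < 0.6931471808 := Real.log_two_lt_d9
    nlinarith
  have hpow : ∀ i n : ℕ, Real.sqrt 2 ^ i * E n ≤ E (2 ^ i * n) := by
    intro i n
    induction i with
    | zero => simp
    | succ i ih =>
      have h := hdouble (2 ^ i * n)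
      have e : 2 ^ (i + 1) * n = 2 * (2 ^ i * n) := by ring
      rw [e, pow_succ]
      have := mul_le_mul_of_nonneg_left ih (Real.sqrt_nonneg 2)
      linarith
  have hlogC : 0 ≤ Real.log C := Real.log_nonneg hC1
  refine ⟨6 * Real.log C + 17, by positivity, ?_⟩
  rintro ⟨n, hn⟩
  have hl2 : (1 : ℝ) / 2 ≤ Real.log (n + 2) := by
    have h1 : Real.log 2 ≤ Real.log ((n : ℝ) + 2) :=
      Real.log_le_log (by norm_num) (by linarith [Nat.cast_nonneg (α := ℝ) n])
    linarith [Real.log_two_gt_d9]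
  have hEn : 0 < E n := by
    have h1 : (6 * Real.log C + 17) * Real.log (n + 2) < S n := by
      apply lt_of_pow_lt_pow_left₀ 2 (hS0 n)
      rw [hSsq]; exact hn
    have h2 : Real.log (C * (n + 1)) ≤ Real.log C + Real.log (n + 2) := by
      rw [Real.log_mul (by positivity) (by positivity)]
      have := Real.log_le_log (by positivity) (show (n : ℝ) + 1 ≤ n + 2 by linarith)
      linarith
    simp only [hE]
    nlinarith
  have hn1 : 1 ≤ n := by
    rcases Nat.eq_zero_or_pos n with rfl | h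
    · exfalso
      have h1 : S 0 = 0 := by simp only [hSdef]; rw [vv_zero, Real.sqrt_zero]
      simp only [hE, h1] at hEn
      have := hlog0 0
      linarith
    · exact h
  have hn' : (0 : ℝ) < n := by exact_mod_cast hn1
  set c₀ : ℝ := E n ^ 2 / n with hc₀
  have hc₀pos : 0 < c₀ := by positivity
  refine ⟨c₀ / 8, by positivity, ?_⟩
  -- the logarithm is eventually small
  have hlim : ∀ᶠ N : ℕ in atTop, Real.log (C * (N + 1)) ≤ Real.sqrt (c₀ * N / 8) * (1 / 5) := by
    have hlo : (fun x : ℝ => Real.log x) =o[atTop] fun x : ℝ => x ^ (1 / 2 : ℝ) :=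
      isLittleO_log_rpow_atTop (by norm_num)
    have hε : 0 < Real.sqrt (c₀ / 8) * (1 / 5) / Real.sqrt (2 * C) := by positivity
    have h1 := hlo.bound hε
    have hcast : Tendsto (fun N : ℕ => C * ((N : ℝ) + 1)) atTop atTop :=
      Tendsto.const_mul_atTop (by linarith)
        (tendsto_atTop_add_const_right _ _ tendsto_natCast_atTop_atTop)
    filter_upwards [hcast.eventually h1, eventually_ge_atTop 1] with N hN hN1
    have hN1' : (1 : ℝ) ≤ N := by exact_mod_cast hN1
    have hCN : 0 < C * ((N : ℝ) + 1) := by positivity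
    rw [Real.norm_eq_abs, Real.norm_eq_abs, ← Real.sqrt_eq_rpow,
      abs_of_nonneg (Real.sqrt_nonneg _)] at hN
    calc Real.log (C * (N + 1)) ≤ |Real.log (C * (N + 1))| := le_abs_self _
      _ ≤ Real.sqrt (c₀ / 8) * (1 / 5) / Real.sqrt (2 * C) * Real.sqrt (C * (N + 1)) := hN
      _ ≤ Real.sqrt (c₀ / 8) * (1 / 5) / Real.sqrt (2 * C) * Real.sqrt ((2 * C) * N) := by
          apply mul_le_mul_of_nonneg_left _ hε.le
          apply Real.sqrt_le_sqrt
          nlinarith
      _ = Real.sqrt (c₀ / 8) * (1 / 5) * Real.sqrt N := by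
          rw [Real.sqrt_mul (by positivity) (N : ℝ)]
          have : Real.sqrt (2 * C) ≠ 0 := by positivity
          field_simp
      _ = Real.sqrt (c₀ * N / 8) * (1 / 5) := by
          rw [show c₀ * N / 8 = c₀ / 8 * N by ring, Real.sqrt_mul (by positivity) (N : ℝ)]
          ring
  obtain ⟨N₁, hN₁⟩ := eventually_atTop.mp hlim
  refine ⟨max N₁ n, fun N hN => ?_⟩
  have hNn : n ≤ N := le_trans (le_max_right _ _) hN
  have hNN : N₁ ≤ N := le_trans (le_max_left _ _) hN
  -- choose i with 2^i n ≤ N < 2^(i+1) n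
  have hex : ∃ i : ℕ, 2 ^ i * n ≤ N ∧ N < 2 ^ (i + 1) * n := by
    have hq1 : 1 ≤ N / n := (Nat.one_le_div_iff hn1).mpr hNn
    refine ⟨Nat.log 2 (N / n), ?_, ?_⟩
    · have h1 := Nat.pow_log_le_self 2 (show N / n ≠ 0 by omega)
      calc 2 ^ Nat.log 2 (N / n) * n ≤ N / n * n := Nat.mul_le_mul_right _ h1
        _ ≤ N := Nat.div_mul_le_self _ _
    · have h1 := Nat.lt_pow_succ_log_self (b := 2) (by norm_num) (N / n)
      have h2 : N < (N / n + 1) * n := by
        have := Nat.lt_div_mul_add (a := N) hn1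
        rw [add_mul, one_mul]; omega
      calc N < (N / n + 1) * n := h2
        _ ≤ 2 ^ (Nat.log 2 (N / n) + 1) * n := Nat.mul_le_mul_right _ h1
  obtain ⟨i, hi1, hi2⟩ := hex
  obtain ⟨r, hr⟩ := Nat.exists_eq_add_of_le hi1
  have h1 := hrec (2 ^ i * n) r
  rw [← hr] at h1
  have h2 : vv k z p q (2 ^ i * n) ≤ (S N + Real.log (C * (N + 1))) ^ 2 := by
    have h3 := vv_nonneg (k := k) z p q r
    have e : ((2 ^ i * n : ℕ) : ℝ) + (r : ℝ) + 1 = (N : ℝ) + 1 := by rw [hr]; push_cast; ring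
    rw [e] at h1
    simp only [hSdef]
    linarith
  have h3 : Real.sqrt 2 ^ i * E n ≤ S (2 ^ i * n) := by
    have h4 := hpow i n
    have h5 := hlog0 (2 ^ i * n)
    simp only [hE] at h4 ⊢
    linarith
  have h4 : 2 ^ i * E n ^ 2 ≤ vv k z p q (2 ^ i * n) := by
    rw [← hSsq]
    calc 2 ^ i * E n ^ 2 = (Real.sqrt 2 ^ i * E n) ^ 2 := by
          rw [mul_pow, ← pow_mul, mul_comm i 2, pow_mul, hsq2]
      _ ≤ S (2 ^ i * n) ^ 2 := pow_le_pow_left₀ (by positivity) h3 2
  have h5 : c₀ * N / 2 ≤ 2 ^ i * E n ^ 2 := by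
    have h6 : (N : ℝ) ≤ 2 ^ (i + 1) * n := by exact_mod_cast hi2.le
    rw [hc₀, pow_succ] at *
    rw [div_mul_eq_mul_div, div_div, div_le_iff₀ (by positivity)]
    have : 0 ≤ E n ^ 2 := sq_nonneg _
    nlinarith
  have h6 : c₀ * N / 2 ≤ (S N + Real.log (C * (N + 1))) ^ 2 := by linarith
  have h7 := hN₁ N hNN
  set T := Real.sqrt (c₀ * N / 8) with hT
  have hT0 : 0 ≤ T := Real.sqrt_nonneg _
  have hTsq : T ^ 2 = c₀ * N / 8 := Real.sq_sqrt (by positivity)
  have h8 : (2 * T) ^ 2 ≤ (S N + Real.log (C * (N + 1))) ^ 2 := by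
    rw [mul_pow, hTsq]; linarith
  have h9 : 2 * T ≤ S N + Real.log (C * (N + 1)) :=
    le_of_sq_le_sq h8 (by linarith [hS0 N, hlog0 N])
  have h10 : T ≤ S N := by linarith
  calc c₀ / 8 * N = T ^ 2 := by rw [hTsq]; ring
    _ ≤ S N ^ 2 := pow_le_pow_left₀ hT0 h10 2
    _ = vv k z p q N := hSsq N

end Pool.Agent.LCSQ
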