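import Pool.Agent.Work.MP_bec1e1_Q_h57.MGF

/-! # Rigidity excludes a linear variance of the free energy (block VARB) -/

set_option autoImplicit false

open scoped BigOperators Classical
open Filter Topology

namespace Pool.Agent.LCSQ

open Pool.Agent.LCSE

variable {k : ℕ}

/-- indicator -/
noncomputable def ind (P : Prop) : ℝ := if P then 1 else 0

lemma ind_nonneg (P : Prop) : 0 ≤ ind P := by unfold ind; split_ifs <;> norm_num
lemma ind_le_one (P : Prop) : ind P ≤ 1 := by unfold ind; split_ifs <;> norm_num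
lemma ind_mono {P Q : Prop} (h : P → Q) : ind P ≤ ind Q := by
  unfold ind
  by_cases h1 : P
  · rw [if_pos h1, if_pos (h h1)]
  · rw [if_neg h1]; split_ifs <;> norm_num

/-- lower tail of a centered function with variance at least `c n` -/
lemma lower_tail (hk : 0 < k) {f : List (Fin k) → ℝ} {c z : ℝ} (hc : 0 < c) (hz : 0 < z) {n : ℕ}
    (hn : 1 ≤ n) (hosc : Osc k n f z)
    (hvar : c * n ≤ Ex k n (fun w => (f w - Ex k n f) ^ 2)) :
    (c / (8 * Real.sqrt (192 * z ^ 4 / c))) ^ 2 / (32 * z ^ 2) ≤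
      Ex k n (fun w => ind (f w - Ex k n f ≤
        -(c / (8 * Real.sqrt (192 * z ^ 4 / c)) * Real.sqrt n))) := by
  have hn' : (0 : ℝ) < n := by exact_mod_cast hn
  have hs : 0 < Real.sqrt n := Real.sqrt_pos.mpr hn'
  have hssq : Real.sqrt n ^ 2 = n := Real.sq_sqrt hn'.le
  set lam := Real.sqrt (192 * z ^ 4 / c) with hlam
  have hlam0 : 0 < lam := Real.sqrt_pos.mpr (by positivity)
  have hlamsq : lam ^ 2 = 192 * z ^ 4 / c := Real.sq_sqrt (by positivity)
  set t := c / (8 * lam) * Real.sqrt n with ht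
  have ht0 : 0 < t := by positivity
  set m := Ex k n f with hm
  set g : List (Fin k) → ℝ := fun w => f w - m with hg
  have hmean : Ex k n g = 0 := by
    simp only [hg]; rw [Ex_sub, Ex_const hk]; exact sub_self _
  have h2 := var_le hk hz.le hosc
  have h4 := fourth_le hk hz hosc
  rw [← hm] at h2 h4
  -- E|g| is large
  set u := lam * Real.sqrt n with hu
  have hu0 : 0 < u := by positivity
  have hE1 : c * n ≤ u * Ex k n (fun w => |g w|) + 96 * z ^ 4 * n ^ 2 / u ^ 2 := by
    calc c * n ≤ Ex k n (fun w => g w ^ 2) := hvar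
      _ ≤ Ex k n (fun w => u * |g w| + (1 / u ^ 2) * g w ^ 4) := by
          refine Ex_mono fun w _ => ?_
          have e : g w ^ 4 = (g w ^ 2) ^ 2 := by ring
          have habs : g w ^ 2 = |g w| ^ 2 := (sq_abs _).symm
          rcases le_total |g w| u with h | h
          · have h5 : g w ^ 2 ≤ u * |g w| := by
              rw [habs, sq]; exact mul_le_mul_of_nonneg_right h (abs_nonneg _)
            have h6 : 0 ≤ (1 / u ^ 2) * g w ^ 4 := by positivity
            linarith
          · have h5 : u ^ 2 ≤ g w ^ 2 := by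
              rw [habs]; exact pow_le_pow_left₀ hu0.le h 2
            have h6 : g w ^ 2 ≤ (1 / u ^ 2) * g w ^ 4 := by
              rw [one_div, ← div_eq_inv_mul, le_div_iff₀ (by positivity), e, sq (g w ^ 2)]
              exact mul_le_mul_of_nonneg_left h5 (sq_nonneg _)
            have h7 : 0 ≤ u * |g w| := by positivity
            linarith
      _ = u * Ex k n (fun w => |g w|) + (1 / u ^ 2) * Ex k n (fun w => g w ^ 4) := by
          rw [Ex_add, Ex_const_mul, Ex_const_mul]
      _ ≤ _ := by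
          have h5 : (1 / u ^ 2) * Ex k n (fun w => g w ^ 4) ≤ (1 / u ^ 2) * (96 * z ^ 4 * n ^ 2) :=
            mul_le_mul_of_nonneg_left h4 (by positivity)
          have h6 : (1 / u ^ 2) * (96 * z ^ 4 * n ^ 2) = 96 * z ^ 4 * n ^ 2 / u ^ 2 := by ring
          linarith
  have hE2 : 96 * z ^ 4 * n ^ 2 / u ^ 2 = c * n / 2 := by
    rw [hu, mul_pow, hlamsq, hssq]
    field_simp
    norm_num
  rw [hE2] at hE1
  have hE3 : c * n / 2 ≤ u * Ex k n (fun w => |g w|) := by linarith
  have hE4 : 4 * t ≤ Ex k n (fun w => |g w|) := by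
    have h5 : 4 * t * u = c * n / 2 := by
      rw [ht, hu]
      calc 4 * (c / (8 * lam) * Real.sqrt n) * (lam * Real.sqrt n)
          = c / 2 * (Real.sqrt n ^ 2) := by field_simp; ring
        _ = c * n / 2 := by rw [hssq]; ring
    have h6 : 4 * t * u ≤ Ex k n (fun w => |g w|) * u := by rw [h5]; linarith
    exact le_of_mul_le_mul_right h6 hu0
  -- negative part
  have hneg : 2 * t ≤ Ex k n (fun w => max (-g w) 0) := by
    have e : ∀ w : List (Fin k), w.length = n → |g w| = 2 * max (-g w) 0 + g w := by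
      intro w _
      rcases le_total 0 (g w) with h | h
      · rw [abs_of_nonneg h, max_eq_right (by linarith)]; ring
      · rw [abs_of_nonpos h, max_eq_left (by linarith)]; ring
    rw [Ex_congr e, Ex_add, Ex_const_mul, hmean] at hE4
    linarith
  set u' := 16 * z ^ 2 * n / t with hu'
  have hu'0 : 0 < u' := by positivity
  have hP : 2 * t ≤ t + (u' * Ex k n (fun w => ind (g w ≤ -t)) + t / 2) := by
    calc 2 * t ≤ Ex k n (fun w => max (-g w) 0) := hneg
      _ ≤ Ex k n (fun w => t + (u' * ind (g w ≤ -t) + (1 / u') * g w ^ 2)) := by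
          refine Ex_mono fun w _ => ?_
          have h5 : 0 ≤ (1 / u') * g w ^ 2 := by positivity
          by_cases h : g w ≤ -t
          · rw [ind, if_pos h, mul_one]
            rcases le_total (-g w) u' with h6 | h6
            · exact max_le (by linarith) (by linarith)
            · have h7 : -g w ≤ (1 / u') * g w ^ 2 := by
                rw [one_div, ← div_eq_inv_mul, le_div_iff₀ hu'0]
                nlinarith
              exact max_le (by linarith) (by linarith)
          · rw [ind, if_neg h, mul_zero]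
            push Not at h
            exact max_le (by linarith) (by linarith)
      _ = t + (u' * Ex k n (fun w => ind (g w ≤ -t)) + (1 / u') * Ex k n (fun w => g w ^ 2)) := by
          rw [Ex_add, Ex_const hk, Ex_add, Ex_const_mul, Ex_const_mul]
      _ ≤ _ := by
          have h5 : (1 / u') * Ex k n (fun w => g w ^ 2) ≤ (1 / u') * (8 * z ^ 2 * n) :=
            mul_le_mul_of_nonneg_left h2 (by positivity)
          have h6 : (1 / u') * (8 * z ^ 2 * n) = t / 2 := by
            rw [hu']; field_simp; norm_num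
          linarith
  have h5 : t / 2 ≤ u' * Ex k n (fun w => ind (g w ≤ -t)) := by linarith
  have h6 : t / 2 / u' = (c / (8 * lam)) ^ 2 / (32 * z ^ 2) := by
    rw [hu', ht]
    calc c / (8 * lam) * Real.sqrt n / 2 / (16 * z ^ 2 * n / (c / (8 * lam) * Real.sqrt n))
        = (c / (8 * lam)) ^ 2 * (Real.sqrt n ^ 2 / n) / (32 * z ^ 2) := by field_simp; norm_num
      _ = _ := by rw [hssq, div_self hn'.ne', mul_one]
  rw [← h6, div_le_iff₀ hu'0, mul_comm]
  exact h5

/-- repeated low values, by subadditivity -/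
lemma rep_low (hk : 0 < k) {z p q : ℝ}
    (hS : ∀ x₁ x₂ : List (Fin k), FE k z p q (x₁ ++ x₂) ≤ FE k z p q x₁ + FE k z p q x₂)
    {n : ℕ} {v c₂ : ℝ} (hc₂ : 0 ≤ c₂)
    (h : c₂ ≤ Ex k n (fun w => ind (FE k z p q w ≤ v))) (j r : ℕ) (R : ℝ)
    (hR : ∀ w : List (Fin k), w.length = r → FE k z p q w ≤ R) :
    c₂ ^ j ≤ Ex k (j * n + r) (fun w => ind (FE k z p q w ≤ j * v + R)) := by
  induction j with
  | zero =>
    rw [pow_zero]
    refine const_le_Ex hk fun w hw => ?_
    have : FE k z p q w ≤ ((0 : ℕ) : ℝ) * v + R := by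
      simpa using hR w (by simpa using hw)
    rw [ind, if_pos this]
  | succ j ih =>
    have e : (j + 1) * n + r = n + (j * n + r) := by ring
    rw [e, Ex_append, pow_succ, mul_comm]
    calc c₂ * c₂ ^ j ≤ Ex k n (fun w => ind (FE k z p q w ≤ v)) *
          Ex k (j * n + r) (fun w => ind (FE k z p q w ≤ j * v + R)) :=
          mul_le_mul h ih (pow_nonneg hc₂ j) (hc₂.trans h)
      _ = Ex k n (fun u => Ex k (j * n + r) (fun w => ind (FE k z p q u ≤ v) *
            ind (FE k z p q w ≤ j * v + R))) := (Ex_prod _ _ _ _).symm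
      _ ≤ _ := by
          refine Ex_mono fun u _ => Ex_mono fun w _ => ?_
          by_cases h1 : FE k z p q u ≤ v
          · by_cases h2 : FE k z p q w ≤ j * v + R
            · have h3 : FE k z p q (u ++ w) ≤ ((j + 1 : ℕ) : ℝ) * v + R := by
                have := hS u w
                push_cast
                linarith
              rw [ind, if_pos h1, ind, if_pos h2, ind, if_pos h3]; norm_num
            · rw [ind, ind, if_neg h2, mul_zero]; exact ind_nonneg _
          · rw [ind, if_neg h1, zero_mul]; exact ind_nonneg _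

/-- Chebyshev for the mean over the columns -/
lemma psi_tail (hk : 0 < k) {N : ℕ} (hN : 1 ≤ N) {A ε : ℝ} (hε : VL k N ≤ ε * N)
    (hA : A + Real.sqrt N ≤ EL k N) :
    Ex k N (fun x => ind (Ex k N (fun y => (L x y : ℝ)) ≤ A)) ≤ ε := by
  have hN' : (0 : ℝ) < N := by exact_mod_cast hN
  have hsq : Real.sqrt N ^ 2 = N := Real.sq_sqrt hN'.le
  have h1 : ∀ x : List (Fin k), x.length = N →
      N * ind (Ex k N (fun y => (L x y : ℝ)) ≤ A) ≤
        Ex k N (fun y => ((L x y : ℝ) - EL k N) ^ 2) := by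
    intro x _
    have hnn : 0 ≤ Ex k N (fun y => ((L x y : ℝ) - EL k N) ^ 2) :=
      Ex_nonneg fun y _ => sq_nonneg _
    by_cases h : Ex k N (fun y => (L x y : ℝ)) ≤ A
    · rw [ind, if_pos h, mul_one]
      set d := Ex k N (fun y => (L x y : ℝ) - EL k N) with hd
      have hd1 : d = Ex k N (fun y => (L x y : ℝ)) - EL k N := by
        rw [hd, Ex_sub, Ex_const hk]
      have hd2 : d ≤ -Real.sqrt N := by rw [hd1]; linarith
      have h2 : 0 ≤ Ex k N (fun y => (((L x y : ℝ) - EL k N) - d) ^ 2) :=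
        Ex_nonneg fun y _ => sq_nonneg _
      have h3 : Ex k N (fun y => (((L x y : ℝ) - EL k N) - d) ^ 2) =
          Ex k N (fun y => ((L x y : ℝ) - EL k N) ^ 2) - d ^ 2 := by
        have e : ∀ y : List (Fin k), y.length = N → (((L x y : ℝ) - EL k N) - d) ^ 2 =
            ((L x y : ℝ) - EL k N) ^ 2 + ((-2 * d) * ((L x y : ℝ) - EL k N) + d ^ 2) :=
          fun y _ => by ring
        rw [Ex_congr e, Ex_add, Ex_add, Ex_const_mul, Ex_const hk, ← hd]
        ring
      have h4 : (N : ℝ) ≤ d ^ 2 := by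
        rw [← hsq]
        nlinarith [Real.sqrt_nonneg (N : ℝ)]
      linarith
    · rw [ind, if_neg h, mul_zero]; exact hnn
  have h2 := Ex_mono h1
  rw [Ex_const_mul] at h2
  have h3 : N * Ex k N (fun x => ind (Ex k N (fun y => (L x y : ℝ)) ≤ A)) ≤ ε * N :=
    h2.trans hε
  nlinarith

theorem stmt_VARB (hSUB : Stmt_SUB) (hH2 : Stmt_H2) : Stmt_VARB := by
  rintro k γ z p q hQ ⟨c, hc, N₀, hlin⟩
  have hk : 0 < k := by have := hQ.hk; omega
  have hz := hQ.hz
  have hq := hQ.hq
  have hS := hSUB k z p q hk hz hq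
  obtain ⟨C₁, hC₁, hh1⟩ := hH2 k γ z p q hQ
  obtain ⟨C, hC0, hlow⟩ := hQ.hlow
  set lam := Real.sqrt (192 * z ^ 4 / c) with hlam
  have hlam0 : 0 < lam := Real.sqrt_pos.mpr (by positivity)
  set c₁ := c / (8 * lam) with hc₁
  have hc₁0 : 0 < c₁ := by positivity
  set c₂ := c₁ ^ 2 / (32 * z ^ 2) with hc₂
  have hc₂0 : 0 < c₂ := by positivity
  -- number of pieces
  obtain ⟨K, hK⟩ := exists_nat_gt (16 * (z * (C + 1) + 1) ^ 2 / c₁ ^ 2 + 1)
  have hK1 : (1 : ℝ) < K := lt_of_le_of_lt (by
    have : 0 ≤ 16 * (z * (C + 1) + 1) ^ 2 / c₁ ^ 2 := by positivity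
    linarith) hK
  have hKpos : 0 < K := by exact_mod_cast lt_trans one_pos hK1
  have hK0 : (0 : ℝ) < K := by linarith
  have hKc : 4 * (z * (C + 1) + 1) ≤ c₁ * Real.sqrt K := by
    have h1 : 16 * (z * (C + 1) + 1) ^ 2 / c₁ ^ 2 ≤ K := by linarith
    rw [div_le_iff₀ (by positivity)] at h1
    have h2 : (4 * (z * (C + 1) + 1)) ^ 2 ≤ (c₁ * Real.sqrt K) ^ 2 := by
      rw [mul_pow c₁, Real.sq_sqrt hK0.le]; linarith
    exact le_of_sq_le_sq h2 (by positivity)
  -- constant for the remainder
  set R : ℝ := z * (1 + |p|) * K + |Real.log (1 - Real.exp (-(z * q)))| with hR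
  have hRle : ∀ r : ℕ, r < K → ∀ w : List (Fin k), w.length = r → FE k z p q w ≤ R := by
    intro r hr w hw
    have h1 := FE_le hk hz hq p w
    rw [hw] at h1
    have hr' : (r : ℝ) ≤ K := by exact_mod_cast hr.le
    have h2 : z * (1 - p) * r ≤ z * (1 + |p|) * K := by
      have h3 : 1 - p ≤ 1 + |p| := by linarith [neg_abs_le p]
      have h4 : z * (1 - p) * r ≤ z * (1 + |p|) * r := by
        apply mul_le_mul_of_nonneg_right _ (Nat.cast_nonneg _)
        exact mul_le_mul_of_nonneg_left h3 hz.le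
      have h5 : 0 ≤ z * (1 + |p|) := by positivity
      linarith [mul_le_mul_of_nonneg_left hr' h5]
    have h6 := neg_abs_le (Real.log (1 - Real.exp (-(z * q))))
    rw [hR]; linarith
  -- largeness
  have hlarge : ∀ᶠ N : ℕ in atTop, K * Real.log (C₁ * (N + 1)) + R < Real.sqrt N := by
    have hlo : (fun x : ℝ => Real.log x) =o[atTop] fun x : ℝ => x ^ (1 / 2 : ℝ) :=
      isLittleO_log_rpow_atTop (by norm_num)
    have hε : 0 < 1 / (4 * K * Real.sqrt (2 * C₁)) := by positivity
    have h1 := hlo.bound hε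
    have hcast : Tendsto (fun N : ℕ => C₁ * ((N : ℝ) + 1)) atTop atTop :=
      Tendsto.const_mul_atTop (by linarith)
        (tendsto_atTop_add_const_right _ _ tendsto_natCast_atTop_atTop)
    have hsq : Tendsto (fun N : ℕ => Real.sqrt (N : ℝ)) atTop atTop :=
      Real.tendsto_sqrt_atTop.comp tendsto_natCast_atTop_atTop
    filter_upwards [hcast.eventually h1, eventually_ge_atTop 1,
      hsq.eventually (eventually_gt_atTop (2 * R))] with N hN hN1 hNR
    have hN1' : (1 : ℝ) ≤ N := by exact_mod_cast hN1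
    have hCN : 0 < C₁ * ((N : ℝ) + 1) := by positivity
    rw [Real.norm_eq_abs, Real.norm_eq_abs, ← Real.sqrt_eq_rpow,
      abs_of_nonneg (Real.sqrt_nonneg _)] at hN
    have h2 : Real.log (C₁ * (N + 1)) ≤ Real.sqrt N / (4 * K) := by
      calc Real.log (C₁ * (N + 1)) ≤ |Real.log (C₁ * (N + 1))| := le_abs_self _
        _ ≤ 1 / (4 * K * Real.sqrt (2 * C₁)) * Real.sqrt (C₁ * (N + 1)) := hN
        _ ≤ 1 / (4 * K * Real.sqrt (2 * C₁)) * Real.sqrt ((2 * C₁) * N) := by
            apply mul_le_mul_of_nonneg_left _ hε.le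
            apply Real.sqrt_le_sqrt
            nlinarith
        _ = Real.sqrt N / (4 * K) := by
            rw [Real.sqrt_mul (by positivity) (N : ℝ)]
            have : Real.sqrt (2 * C₁) ≠ 0 := by positivity
            field_simp
    have h3 : K * Real.log (C₁ * (N + 1)) ≤ Real.sqrt N / 4 := by
      calc K * Real.log (C₁ * (N + 1)) ≤ K * (Real.sqrt N / (4 * K)) :=
            mul_le_mul_of_nonneg_left h2 hK0.le
        _ = Real.sqrt N / 4 := by field_simp
    have h4 : 0 < Real.sqrt N := Real.sqrt_pos.mpr (by linarith)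
    linarith
  obtain ⟨N₁, hN₁⟩ := eventually_atTop.mp hlarge
  -- a rigid N
  obtain ⟨N, hNge, hrig⟩ := hQ.hrig (c₂ ^ K / 2) (by positivity)
    (max N₁ (max (K * (N₀ + 1)) (2 * K)))
  have hNN₁ : N₁ ≤ N := (le_max_left _ _).trans hNge
  have hNK : K * (N₀ + 1) ≤ N := (le_max_left _ _).trans ((le_max_right _ _).trans hNge)
  have hN2K : 2 * K ≤ N := (le_max_right _ _).trans ((le_max_right _ _).trans hNge)
  set n := N / K with hn
  set r := N % K with hr
  have hNdec : N = K * n + r := (Nat.div_add_mod N K).symm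
  have hrK : r < K := Nat.mod_lt _ hKpos
  have hnN₀ : N₀ + 1 ≤ n := (Nat.le_div_iff_mul_le hKpos).mpr (by rw [mul_comm]; exact hNK)
  have hn1 : 1 ≤ n := by omega
  have hn' : (0 : ℝ) < n := by exact_mod_cast hn1
  have hN' : (0 : ℝ) < N := by
    have : 1 ≤ N := by nlinarith
    exact_mod_cast this
  have hN1 : 1 ≤ N := by nlinarith
  have htail := lower_tail hk hc hz hn1 (FE_osc hk hz hq p n) (hlin n (by omega))
  rw [← hlam, ← hc₁, ← hc₂] at htail
  have htail2 : c₂ ≤ Ex k n (fun w => ind (FE k z p q w ≤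
      hh k z p q n - c₁ * Real.sqrt n)) := by
    refine htail.trans (Ex_mono fun w _ => ind_mono fun h => ?_)
    have : Ex k n (FE k z p q) = hh k z p q n := rfl
    rw [this] at h
    linarith
  have hrep := rep_low hk hS hc₂0.le htail2 K r R (hRle r hrK)
  rw [← hNdec] at hrep
  set v := hh k z p q n - c₁ * Real.sqrt n with hv
  have hpsi := psi_tail hk hN1 (A := γ * N - (C + 1) * Real.sqrt N) hrig (by
    have := hlow N
    linarith)
  -- a word which violates both
  have hexists : ∃ x : List (Fin k), x.length = N ∧ FE k z p q x ≤ K * v + R ∧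
      γ * N - (C + 1) * Real.sqrt N < Ex k N (fun y => (L x y : ℝ)) := by
    by_contra hcon
    push Not at hcon
    have h1 : Ex k N (fun w => ind (FE k z p q w ≤ K * v + R)) ≤
        Ex k N (fun x => ind (Ex k N (fun y => (L x y : ℝ)) ≤
          γ * N - (C + 1) * Real.sqrt N)) :=
      Ex_mono fun x hx => ind_mono fun h => hcon x hx h
    have h2 : 0 < c₂ ^ K := by positivity
    linarith
  obtain ⟨x, hx, hFx, hLx⟩ := hexists
  have hFge := FE_ge_mean hk hz hq p x N
  rw [hx] at hFge
  have hpq := hQ.hpq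
  have h1 : -(z * (C + 1) * Real.sqrt N) ≤ FE k z p q x := by
    have h2 : z * (Ex k N (fun y => (L x y : ℝ)) - q * N - p * N) =
        z * (Ex k N (fun y => (L x y : ℝ)) - γ * N) := by rw [← hpq]; ring
    rw [h2] at hFge
    have h3 : z * (-((C + 1) * Real.sqrt N)) ≤ z * (Ex k N (fun y => (L x y : ℝ)) - γ * N) :=
      mul_le_mul_of_nonneg_left (by linarith) hz.le
    linarith
  have h2 : hh k z p q n ≤ Real.log (C₁ * (N + 1)) := by
    refine (hh1 n).trans (Real.log_le_log (by positivity) ?_)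
    have : (n : ℝ) ≤ N := by exact_mod_cast Nat.div_le_self N K
    nlinarith
  have h3 := hN₁ N hNN₁
  have h4 : Real.sqrt K * Real.sqrt N / 2 ≤ K * Real.sqrt n := by
    have h5 : (N : ℝ) / 4 ≤ K * n := by
      have h6 : (N : ℝ) = K * n + r := by exact_mod_cast hNdec
      have h7 : (r : ℝ) ≤ K := by exact_mod_cast hrK.le
      have h8 : 2 * (K : ℝ) ≤ N := by exact_mod_cast hN2K
      linarith
    have h6 : Real.sqrt N / 2 ≤ Real.sqrt (K * n) := by
      have h7 : Real.sqrt (N / 4) = Real.sqrt N / 2 := by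
        rw [Real.sqrt_div hN'.le, show (4 : ℝ) = 2 ^ 2 by norm_num, Real.sqrt_sq (by norm_num)]
      rw [← h7]; exact Real.sqrt_le_sqrt h5
    rw [Real.sqrt_mul hK0.le] at h6
    have h7 : Real.sqrt K * (Real.sqrt K * Real.sqrt n) = K * Real.sqrt n := by
      rw [← mul_assoc, Real.mul_self_sqrt hK0.le]
    have h8 := mul_le_mul_of_nonneg_left h6 (Real.sqrt_nonneg (K : ℝ))
    rw [h7] at h8
    linarith
  have hsN : 0 < Real.sqrt N := Real.sqrt_pos.mpr hN'
  have h5 : 2 * (z * (C + 1) + 1) * Real.sqrt N ≤ K * (c₁ * Real.sqrt n) := by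
    have h6 : c₁ * (Real.sqrt K * Real.sqrt N / 2) ≤ c₁ * (K * Real.sqrt n) :=
      mul_le_mul_of_nonneg_left h4 hc₁0.le
    have h7 : 4 * (z * (C + 1) + 1) * (Real.sqrt N / 2) ≤ c₁ * Real.sqrt K * (Real.sqrt N / 2) :=
      mul_le_mul_of_nonneg_right hKc (by positivity)
    linarith
  have h6 : K * v = K * hh k z p q n - K * (c₁ * Real.sqrt n) := by rw [hv]; ring
  have h7 : K * hh k z p q n ≤ K * Real.log (C₁ * (N + 1)) := mul_le_mul_of_nonneg_left h2 hK0.le
  have h8 : 0 ≤ z * (C + 1) * Real.sqrt N := by positivity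
  nlinarith

end Pool.Agent.LCSQ
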