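import Pool.Agent.Work.MP_bec1e1_Q_h57.SUBSUP
import Pool.Agent.Work.MP_bec1e1_Q_h57.PR
import Pool.Agent.Work.MP_bec1e1_Q_h57.H1
import Pool.Agent.Work.MP_bec1e1_Q_h57.H2
import Pool.Agent.Work.MP_bec1e1_Q_h57.VARA
import Pool.Agent.Work.MP_bec1e1_Q_h57.VARB
import Pool.Agent.Work.MP_bec1e1_Q_h57.FINC

/-! # (Q): quenched luck is free in the rigid world (assembly) -/

set_option autoImplicit false

open Filter Topology
open scoped BigOperators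

namespace Pool.Agent.LCSQ

open Pool.Agent.LCSE

/-- **(Q)** -/
theorem stmt_Q : Stmt_Q := by
  intro k γ hk hγ0 hγ hlim hsup hlow hrig z hz
  by_contra hcon
  push Not at hcon
  obtain ⟨p, q, hq, hpq, hPhi⟩ := stmt_PR k γ z hk hγ0 hγ hz hcon
  have hQ : QC k γ z p q := ⟨hk, hγ0, hγ, hz, hq, hpq, hPhi, hlim, hsup, hlow, hrig⟩
  have hH2 := stmt_H2 stmt_SUP stmt_H1
  obtain ⟨C, hC0, hC⟩ := stmt_VARA stmt_SUB stmt_SUP k γ z p q hQ
  refine finc stmt_SUB stmt_SUP k γ z p q hQ (hH2 k γ z p q hQ) ⟨C, hC0, fun n => ?_⟩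
  by_contra hn
  push Not at hn
  exact stmt_VARB stmt_SUB hH2 k γ z p q hQ (hC ⟨n, hn⟩)

end Pool.Agent.LCSQ
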