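import Pool.Agent.Work.MP_bec1e1_E_helper47.Base

/-!
# Quenched luck (Q) in the rigid world, MP_bec1e1_pr: definitions and basic lemmas

`W k z x b`: mean of `exp (z * L x y)` over `|y| = b`, the word `x` is fixed.
`Zb k z q x = ∑' b, exp (-(z q b)) * W k z x b`: free number of columns, price `z q` per column.
`FE k z p q x = log (Zb k z q x) - z p |x|`.
-/

set_option autoImplicit false

open scoped BigOperators
open Filter Topology

namespace Pool.Agent.LCSQ

open Pool.Agent.LCSE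

/-- mean of `exp (z * L x y)` over the words `y` of length `b`, `x` fixed -/
noncomputable def W (k : ℕ) (z : ℝ) (x : List (Fin k)) (b : ℕ) : ℝ :=
  Ex k b (fun y => Real.exp (z * (L x y : ℝ)))

/-- partition function with a free number of columns, price `z * q` per column -/
noncomputable def Zb (k : ℕ) (z q : ℝ) (x : List (Fin k)) : ℝ :=
  ∑' b : ℕ, Real.exp (-(z * q * b)) * W k z x b

/-- normalised free energy of the word `x` -/
noncomputable def FE (k : ℕ) (z p q : ℝ) (x : List (Fin k)) : ℝ :=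
  Real.log (Zb k z q x) - z * p * x.length

/-- mean free energy -/
noncomputable def hh (k : ℕ) (z p q : ℝ) (n : ℕ) : ℝ := Ex k n (FE k z p q)

/-- variance of the free energy -/
noncomputable def vv (k : ℕ) (z p q : ℝ) (n : ℕ) : ℝ :=
  Ex k n (fun x => (FE k z p q x - hh k z p q n) ^ 2)

/-- quenched log partition function, `a` rows and `b` columns -/
noncomputable def LQ (k : ℕ) (z : ℝ) (a b : ℕ) : ℝ := Ex k a (fun x => Real.log (W k z x b))

/-- variance of the length of the longest common subsequence -/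
noncomputable def VL (k : ℕ) (n : ℕ) : ℝ :=
  Ex k n (fun x => Ex k n (fun y => ((L x y : ℝ) - EL k n) ^ 2))

/-- `f` changes by at most `c` if one letter of a word of length `n` is changed -/
def Osc (k n : ℕ) (f : List (Fin k) → ℝ) (c : ℝ) : Prop :=
  ∀ (w₁ w₂ : List (Fin k)) (a b : Fin k), w₁.length + w₂.length + 1 = n →
    |f (w₁ ++ a :: w₂) - f (w₁ ++ b :: w₂)| ≤ c

variable {k : ℕ}

/-! ## more about `L` -/

lemma L_cons_left_le (c : Fin k) (u v : List (Fin k)) : L (c :: u) v ≤ L u v + 1 := by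
  rw [L_comm, L_comm u v]; exact L_cons_right_le c v u

lemma L_append_le (u u' v : List (Fin k)) : L (u ++ u') v ≤ L u v + u'.length := by
  obtain ⟨g, -, h⟩ := L_append_split u u' v
  rw [h]
  exact Nat.add_le_add (L_mono (List.Sublist.refl _) (List.take_sublist _ _)) (L_le_left _ _)

/-- changing one letter of the left word changes `L` by at most one -/
lemma L_change (w₁ w₂ : List (Fin k)) (a b : Fin k) (v : List (Fin k)) :
    L (w₁ ++ a :: w₂) v ≤ L (w₁ ++ b :: w₂) v + 1 := by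
  have h1 : L (w₁ ++ a :: w₂) v ≤ L (w₁ ++ w₂) v + 1 := by
    obtain ⟨g, -, h⟩ := L_append_split w₁ (a :: w₂) v
    have h2 := L_cons_left_le a w₂ (v.drop g)
    have h3 : L w₁ (v.take g) + L w₂ (v.drop g) ≤ L (w₁ ++ w₂) v := by
      calc _ ≤ L (w₁ ++ w₂) (v.take g ++ v.drop g) := L_append_ge _ _ _ _
        _ = _ := by rw [List.take_append_drop]
    omega
  have h4 : L (w₁ ++ w₂) v ≤ L (w₁ ++ b :: w₂) v :=
    L_mono ((List.Sublist.refl _).append (List.sublist_cons_self _ _)) (List.Sublist.refl _)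
  omega

/-! ## `W` -/

lemma W_pos (hk : 0 < k) (z : ℝ) (x : List (Fin k)) (b : ℕ) : 0 < W k z x b := by
  unfold W
  have h : ∀ y : List (Fin k), y.length = b →
      Real.exp (-(|z| * x.length)) ≤ Real.exp (z * (L x y : ℝ)) := by
    intro y _
    apply Real.exp_le_exp.mpr
    have h1 : (L x y : ℝ) ≤ x.length := by exact_mod_cast L_le_left x y
    have h2 : -(|z| * (L x y : ℝ)) ≤ z * (L x y : ℝ) := by
      rw [← neg_mul]
      exact mul_le_mul_of_nonneg_right (neg_abs_le z) (Nat.cast_nonneg _)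
    nlinarith [abs_nonneg z]
  exact lt_of_lt_of_le (Real.exp_pos _) (const_le_Ex hk h)

lemma one_le_W (hk : 0 < k) {z : ℝ} (hz : 0 ≤ z) (x : List (Fin k)) (b : ℕ) : 1 ≤ W k z x b :=
  const_le_Ex hk fun _ _ => Real.one_le_exp (by positivity)

lemma W_zero (z : ℝ) (x : List (Fin k)) : W k z x 0 = 1 := by
  simp [W]

lemma W_nil (hk : 0 < k) (z : ℝ) (b : ℕ) : W k z [] b = 1 := by
  simp [W, Ex_const hk]

lemma W_le_exp_left (hk : 0 < k) {z : ℝ} (hz : 0 ≤ z) (x : List (Fin k)) (b : ℕ) :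
    W k z x b ≤ Real.exp (z * x.length) := by
  refine Ex_le_const hk fun y _ => Real.exp_le_exp.mpr ?_
  exact mul_le_mul_of_nonneg_left (by exact_mod_cast L_le_left x y) hz

lemma W_le_exp_right (hk : 0 < k) {z : ℝ} (hz : 0 ≤ z) (x : List (Fin k)) (b : ℕ) :
    W k z x b ≤ Real.exp (z * b) := by
  refine Ex_le_const hk fun y hy => Real.exp_le_exp.mpr ?_
  exact mul_le_mul_of_nonneg_left (by exact_mod_cast hy ▸ L_le_right x y) hz

/-- supermultiplicativity for fixed words -/
lemma W_mul_le (hk : 0 < k) {z : ℝ} (hz : 0 ≤ z) (x x' : List (Fin k)) (b b' : ℕ) :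
    W k z x b * W k z x' b' ≤ W k z (x ++ x') (b + b') := by
  unfold W
  rw [Ex_append, ← Ex_mul_const]
  refine Ex_mono fun y _ => ?_
  rw [← Ex_const_mul]
  refine Ex_mono fun y' _ => ?_
  rw [← Real.exp_add]
  apply Real.exp_le_exp.mpr
  have : ((L x y + L x' y' : ℕ) : ℝ) ≤ (L (x ++ x') (y ++ y') : ℝ) := by
    exact_mod_cast L_append_ge x x' y y'
  push_cast at this
  nlinarith

/-- the word `y` of length `g + c` is cut at `g` -/
lemma Ex_take_drop (g c : ℕ) (f h : List (Fin k) → ℝ) :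
    Ex k (g + c) (fun y => f (y.take g) * h (y.drop g)) = Ex k g f * Ex k c h := by
  rw [Ex_append, ← Ex_prod]
  refine Ex_congr fun u hu => Ex_congr fun v _ => ?_
  rw [List.take_left' hu, List.drop_left' hu]

/-- splitting the rows, fixed words -/
lemma W_split (z : ℝ) (x x' : List (Fin k)) (b : ℕ) :
    W k z (x ++ x') b ≤ ∑ g ∈ Finset.range (b + 1), W k z x g * W k z x' (b - g) := by
  have h1 : ∀ g ∈ Finset.range (b + 1), W k z x g * W k z x' (b - g) =
      Ex k b (fun y =>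
        Real.exp (z * (L x (y.take g) : ℝ)) * Real.exp (z * (L x' (y.drop g) : ℝ))) := by
    intro g hg
    have hg' : g ≤ b := Nat.lt_succ_iff.mp (Finset.mem_range.mp hg)
    obtain ⟨c, rfl⟩ := Nat.exists_eq_add_of_le hg'
    rw [Ex_take_drop g c (fun y => Real.exp (z * (L x y : ℝ)))
      (fun y => Real.exp (z * (L x' y : ℝ))), Nat.add_sub_cancel_left]
    rfl
  rw [Finset.sum_congr rfl h1, ← Ex_finset_sum]
  refine Ex_mono fun y hy => ?_
  obtain ⟨g, hg, h⟩ := L_append_split x x' y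
  rw [h]
  push_cast
  rw [mul_add, Real.exp_add]
  refine Finset.single_le_sum (f := fun g => Real.exp (z * (L x (y.take g) : ℝ)) *
    Real.exp (z * (L x' (y.drop g) : ℝ))) (fun i _ => by positivity) ?_
  exact Finset.mem_range.mpr (by omega)

/-- `W` is monotone in the number of columns -/
lemma W_mono (hk : 0 < k) {z : ℝ} (hz : 0 ≤ z) (x : List (Fin k)) {b b' : ℕ} (h : b ≤ b') :
    W k z x b ≤ W k z x b' := by
  obtain ⟨c, rfl⟩ := Nat.exists_eq_add_of_le h
  have h1 := W_mul_le hk hz x [] b c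
  rw [W_nil hk, mul_one, List.append_nil] at h1
  exact h1

/-- Jensen -/
lemma exp_mean_le_W (hk : 0 < k) (z : ℝ) (x : List (Fin k)) (b : ℕ) :
    Real.exp (z * Ex k b (fun y => (L x y : ℝ))) ≤ W k z x b := by
  have h := Ex_exp_jensen hk b (fun y : List (Fin k) => z * (L x y : ℝ))
  rwa [Ex_const_mul] at h

/-- changing one letter of the fixed word changes `W` by a factor at most `exp z` -/
lemma W_change (hk : 0 < k) {z : ℝ} (hz : 0 ≤ z) (w₁ w₂ : List (Fin k)) (a b : Fin k) (n : ℕ) :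
    W k z (w₁ ++ a :: w₂) n ≤ Real.exp z * W k z (w₁ ++ b :: w₂) n := by
  unfold W
  rw [← Ex_const_mul]
  refine Ex_mono fun y _ => ?_
  rw [← Real.exp_add]
  apply Real.exp_le_exp.mpr
  have : (L (w₁ ++ a :: w₂) y : ℝ) ≤ (L (w₁ ++ b :: w₂) y : ℝ) + 1 := by
    exact_mod_cast L_change w₁ w₂ a b y
  nlinarith

/-! ## `Zb` -/

lemma summable_geom {t : ℝ} (ht : 0 < t) : Summable (fun b : ℕ => Real.exp (-(t * b))) := by
  have h : (fun b : ℕ => Real.exp (-(t * b))) = fun b : ℕ => (Real.exp (-t)) ^ b := by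
    funext b
    rw [← Real.exp_nat_mul]
    congr 1
    ring
  rw [h]
  exact summable_geometric_of_lt_one (Real.exp_pos _).le
    (by rw [← Real.exp_zero]; exact Real.exp_lt_exp.mpr (by linarith))

lemma tsum_geom {t : ℝ} (ht : 0 < t) :
    ∑' b : ℕ, Real.exp (-(t * b)) = (1 - Real.exp (-t))⁻¹ := by
  have h : (fun b : ℕ => Real.exp (-(t * b))) = fun b : ℕ => (Real.exp (-t)) ^ b := by
    funext b
    rw [← Real.exp_nat_mul]
    congr 1
    ring
  rw [h]
  exact tsum_geometric_of_lt_one (Real.exp_pos _).le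
    (by rw [← Real.exp_zero]; exact Real.exp_lt_exp.mpr (by linarith))

lemma summable_Zb (hk : 0 < k) {z q : ℝ} (hz : 0 < z) (hq : 0 < q) (x : List (Fin k)) :
    Summable (fun b : ℕ => Real.exp (-(z * q * b)) * W k z x b) := by
  refine Summable.of_nonneg_of_le (fun b => mul_nonneg (Real.exp_pos _).le (W_pos hk z x b).le)
    (fun b => ?_) ((summable_geom (mul_pos hz hq)).mul_right (Real.exp (z * x.length)))
  exact mul_le_mul_of_nonneg_left (W_le_exp_left hk hz.le x b) (Real.exp_pos _).le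

lemma term_le_Zb (hk : 0 < k) {z q : ℝ} (hz : 0 < z) (hq : 0 < q) (x : List (Fin k)) (b : ℕ) :
    Real.exp (-(z * q * b)) * W k z x b ≤ Zb k z q x :=
  (summable_Zb hk hz hq x).le_tsum b
    (fun j _ => mul_nonneg (Real.exp_pos _).le (W_pos hk z x j).le)

lemma one_le_Zb (hk : 0 < k) {z q : ℝ} (hz : 0 < z) (hq : 0 < q) (x : List (Fin k)) :
    1 ≤ Zb k z q x := by
  have h := term_le_Zb hk hz hq x 0
  simpa [W_zero] using h

lemma Zb_pos (hk : 0 < k) {z q : ℝ} (hz : 0 < z) (hq : 0 < q) (x : List (Fin k)) :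
    0 < Zb k z q x := lt_of_lt_of_le one_pos (one_le_Zb hk hz hq x)

lemma Zb_le (hk : 0 < k) {z q : ℝ} (hz : 0 < z) (hq : 0 < q) (x : List (Fin k)) :
    Zb k z q x ≤ (1 - Real.exp (-(z * q)))⁻¹ * Real.exp (z * x.length) := by
  unfold Zb
  rw [← tsum_geom (mul_pos hz hq), ← tsum_mul_right]
  refine Summable.tsum_le_tsum (fun b => ?_) (summable_Zb hk hz hq x)
    ((summable_geom (mul_pos hz hq)).mul_right _)
  exact mul_le_mul_of_nonneg_left (W_le_exp_left hk hz.le x b) (Real.exp_pos _).le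

lemma Zb_change (hk : 0 < k) {z q : ℝ} (hz : 0 < z) (hq : 0 < q) (w₁ w₂ : List (Fin k))
    (a b : Fin k) : Zb k z q (w₁ ++ a :: w₂) ≤ Real.exp z * Zb k z q (w₁ ++ b :: w₂) := by
  unfold Zb
  rw [← tsum_mul_left]
  refine Summable.tsum_le_tsum (fun n => ?_) (summable_Zb hk hz hq _)
    ((summable_Zb hk hz hq _).mul_left _)
  have := W_change hk hz.le w₁ w₂ a b n
  have h2 := mul_le_mul_of_nonneg_left this (Real.exp_pos (-(z * q * n))).le
  linarith

lemma exp_FE (hk : 0 < k) {z q : ℝ} (hz : 0 < z) (hq : 0 < q) (p : ℝ) (x : List (Fin k)) :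
    Zb k z q x = Real.exp (FE k z p q x + z * p * x.length) := by
  unfold FE
  rw [sub_add_cancel, Real.exp_log (Zb_pos hk hz hq x)]

/-- trivial lower bound -/
lemma FE_ge (hk : 0 < k) {z q : ℝ} (hz : 0 < z) (hq : 0 < q) (p : ℝ) (x : List (Fin k)) :
    -(z * p * x.length) ≤ FE k z p q x := by
  unfold FE
  have := Real.log_nonneg (one_le_Zb hk hz hq x)
  linarith

/-- trivial upper bound -/
lemma FE_le (hk : 0 < k) {z q : ℝ} (hz : 0 < z) (hq : 0 < q) (p : ℝ) (x : List (Fin k)) :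
    FE k z p q x ≤ z * (1 - p) * x.length - Real.log (1 - Real.exp (-(z * q))) := by
  have hpos : 0 < 1 - Real.exp (-(z * q)) := by
    have : Real.exp (-(z * q)) < 1 := by
      rw [← Real.exp_zero]; exact Real.exp_lt_exp.mpr (by nlinarith [mul_pos hz hq])
    linarith
  unfold FE
  have h := Real.log_le_log (Zb_pos hk hz hq x) (Zb_le hk hz hq x)
  rw [Real.log_mul (inv_pos.mpr hpos).ne' (Real.exp_pos _).ne', Real.log_inv, Real.log_exp] at h
  linarith

/-- bounded differences -/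
lemma FE_osc (hk : 0 < k) {z q : ℝ} (hz : 0 < z) (hq : 0 < q) (p : ℝ) (n : ℕ) :
    Osc k n (FE k z p q) z := by
  have key : ∀ (w₁ w₂ : List (Fin k)) (a b : Fin k),
      FE k z p q (w₁ ++ a :: w₂) - FE k z p q (w₁ ++ b :: w₂) ≤ z := by
    intro w₁ w₂ a b
    have h := Real.log_le_log (Zb_pos hk hz hq _) (Zb_change hk hz hq w₁ w₂ a b)
    rw [Real.log_mul (Real.exp_pos _).ne' (Zb_pos hk hz hq _).ne', Real.log_exp] at h
    unfold FE
    have hl : ((w₁ ++ a :: w₂).length : ℝ) = (w₁ ++ b :: w₂).length := by simp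
    rw [hl]
    linarith
  intro w₁ w₂ a b _
  rw [abs_le]
  constructor
  · linarith [key w₁ w₂ b a]
  · exact key w₁ w₂ a b

/-- lower bound by the mean of `L` -/
lemma FE_ge_mean (hk : 0 < k) {z q : ℝ} (hz : 0 < z) (hq : 0 < q) (p : ℝ) (x : List (Fin k))
    (b : ℕ) : z * (Ex k b (fun y => (L x y : ℝ)) - q * b - p * x.length) ≤ FE k z p q x := by
  have h1 := term_le_Zb hk hz hq x b
  have h2 := exp_mean_le_W hk z x b
  have h3 : Real.exp (-(z * q * b)) * Real.exp (z * Ex k b (fun y => (L x y : ℝ))) ≤ Zb k z q x :=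
    le_trans (mul_le_mul_of_nonneg_left h2 (Real.exp_pos _).le) h1
  rw [← Real.exp_add] at h3
  have h4 := Real.log_le_log (Real.exp_pos _) h3
  rw [Real.log_exp] at h4
  unfold FE
  linarith

end Pool.Agent.LCSQ
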