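import Pool.Agent.Work.MP_bec1e1_Q_h57.Base2

/-!
# (Q): quenched luck is free in the rigid world. One `Prop` per block.

Assume that quenched luck is not free at some `z > 0`. Then the free energy `FE` is additive up to
`log`, its mean is at most `log (C (n+1))`, rigidity makes its variance `O(log² n)`, and natural
special words (theorem (E), file `MP_bec1e1_E_helper47`) make the variance polynomial.
-/

set_option autoImplicit false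

open Filter Topology
open scoped BigOperators

namespace Pool.Agent.LCSQ

open Pool.Agent.LCSE

/-- The (impossible) world: rigid, `E L_n ≥ γ n - C √n`, quenched luck not free at `z`. -/
structure QC (k : ℕ) (γ z p q : ℝ) : Prop where
  hk : 2 ≤ k
  hγ0 : 0 < γ
  hγ : γ < 1
  hz : 0 < z
  hq : 0 < q
  hpq : p + q = γ
  hPhi : ∀ a b : ℕ, LQ k z a b ≤ z * (p * a + q * b)
  hlim : Tendsto (fun n : ℕ => EL k n / n) atTop (𝓝 γ)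
  hsup : ∀ n : ℕ, EL k n ≤ γ * n
  hlow : ∃ C : ℝ, 0 ≤ C ∧ ∀ n : ℕ, γ * n - C * Real.sqrt n ≤ EL k n
  hrig : ∀ ε : ℝ, 0 < ε → ∀ N : ℕ, ∃ n : ℕ, N ≤ n ∧ VL k n ≤ ε * n

/-- **MGF**: bounded differences. Induction on `n` (`Ex_succ`, first letter): with
`g c = Ex k n (f (c :: ·))` one has `|g c - g c'| ≤ c`, so `|g c - mean| ≤ c`, and
`e^{td} ≤ cosh(tc) + (d/c) sinh(tc)` for `|d| ≤ c`, `cosh u ≤ e^{u²/2}`. -/
def Stmt_MGF : Prop :=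
  ∀ (k n : ℕ) (f : List (Fin k) → ℝ) (c t : ℝ), 0 < k → 0 ≤ c → Osc k n f c →
    Ex k n (fun w => Real.exp (t * (f w - Ex k n f))) ≤ Real.exp (t ^ 2 * c ^ 2 * n / 2)

/-- **SUB**: exact subadditivity (`W_split` and the Cauchy product). -/
def Stmt_SUB : Prop :=
  ∀ (k : ℕ) (z p q : ℝ), 0 < k → 0 < z → 0 < q → ∀ x₁ x₂ : List (Fin k),
    FE k z p q (x₁ ++ x₂) ≤ FE k z p q x₁ + FE k z p q x₂

/-- **SUP**: superadditivity up to a logarithm. -/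
def Stmt_SUP : Prop :=
  ∀ (k : ℕ) (z p q : ℝ), 0 < k → 0 < z → 0 < q → ∃ C : ℝ, 1 ≤ C ∧ ∀ x₁ x₂ : List (Fin k),
    FE k z p q x₁ + FE k z p q x₂ - Real.log (C * (x₁.length + x₂.length + 1)) ≤
      FE k z p q (x₁ ++ x₂)

/-- **PR**: existence of a supporting price for the superadditive function `LQ`.
`z q = sup_{b > a} (LQ a b - z γ a)/(b - a) ≤ inf_{b < a} (z γ a - LQ a b)/(a - b)`. -/
def Stmt_PR : Prop :=
  ∀ (k : ℕ) (γ z : ℝ), 2 ≤ k → 0 < γ → γ < 1 → 0 < z → (∀ n : ℕ, LQ k z n n ≤ z * γ * n) →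
    ∃ p q : ℝ, 0 < q ∧ p + q = γ ∧ ∀ a b : ℕ, LQ k z a b ≤ z * (p * a + q * b)

/-- **H1**: the mean is `O(√n log n)`. (For `s = 1/√n`:
`E log ∑ a_i ≤ (1/s) log ∑ E a_i^s ≤ max E log a_i + (1/s) log #i + s z² n / 2`.) -/
def Stmt_H1 : Prop :=
  ∀ (k : ℕ) (γ z p q : ℝ), QC k γ z p q → ∃ C : ℝ, 0 ≤ C ∧ ∀ n : ℕ,
    hh k z p q n ≤ C * Real.sqrt (n + 1) * Real.log (n + 2)

/-- **H2**: the mean is at most `log (C (n+1))` (from SUP and H1 by doubling). -/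
def Stmt_H2 : Prop :=
  ∀ (k : ℕ) (γ z p q : ℝ), QC k γ z p q → ∃ C : ℝ, 1 ≤ C ∧ ∀ n : ℕ,
    hh k z p q n ≤ Real.log (C * (n + 1))

/-- **VARA**: the variance of the free energy is linear or `O(log²)`. -/
def Stmt_VARA : Prop :=
  ∀ (k : ℕ) (γ z p q : ℝ), QC k γ z p q → ∃ C : ℝ, 0 ≤ C ∧
    ((∃ n : ℕ, (C * Real.log (n + 2)) ^ 2 < vv k z p q n) →
      ∃ c : ℝ, 0 < c ∧ ∃ N₀ : ℕ, ∀ N : ℕ, N₀ ≤ N → c * N ≤ vv k z p q N)

/-- **VARB**: rigidity excludes the linear case. -/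
def Stmt_VARB : Prop :=
  ∀ (k : ℕ) (γ z p q : ℝ), QC k γ z p q →
    ¬ ∃ c : ℝ, 0 < c ∧ ∃ N₀ : ℕ, ∀ N : ℕ, N₀ ≤ N → c * N ≤ vv k z p q N

/-- **FINC** (end of note 1221): natural special words make the variance polynomial.
Uses `Stmt_SUB`, `Stmt_SUP`, theorem (E) (`Pool.Agent.LCSE`, file `ALL.lean`). -/
def Stmt_FINC : Prop :=
  ∀ (k : ℕ) (γ z p q : ℝ), QC k γ z p q →
    (∃ C : ℝ, 1 ≤ C ∧ ∀ n : ℕ, hh k z p q n ≤ Real.log (C * (n + 1))) →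
    (∃ C : ℝ, 0 ≤ C ∧ ∀ n : ℕ, vv k z p q n ≤ (C * Real.log (n + 2)) ^ 2) → False

/-- **(Q)**: in the rigid world quenched luck is free. -/
def Stmt_Q : Prop :=
  ∀ (k : ℕ) (γ : ℝ), 2 ≤ k → 0 < γ → γ < 1 → Tendsto (fun n : ℕ => EL k n / n) atTop (𝓝 γ) →
    (∀ n : ℕ, EL k n ≤ γ * n) →
    (∃ C : ℝ, 0 ≤ C ∧ ∀ n : ℕ, γ * n - C * Real.sqrt n ≤ EL k n) →
    (∀ ε : ℝ, 0 < ε → ∀ N : ℕ, ∃ n : ℕ, N ≤ n ∧ VL k n ≤ ε * n) →
    ∀ z : ℝ, 0 < z → ∃ n : ℕ, z * γ * n < LQ k z n n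

end Pool.Agent.LCSQ
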