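import Pool.Agent.Work.MP_bec1e1_Q_h57.Interface

/-! # Bounded differences on words (block MGF) -/

set_option autoImplicit false

open scoped BigOperators

namespace Pool.Agent.LCSQ

open Pool.Agent.LCSE

variable {k : ℕ}

/-- convexity: `e^{td} ≤ cosh (tc) + (d/c) sinh (tc)` for `|d| ≤ c` -/
lemma exp_le_cosh_sinh {c d t : ℝ} (hc : 0 < c) (hd : |d| ≤ c) :
    Real.exp (t * d) ≤ Real.cosh (t * c) + d / c * Real.sinh (t * c) := by
  have h1 : -c ≤ d := (abs_le.mp hd).1
  have h2 : d ≤ c := (abs_le.mp hd).2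
  set a := (1 + d / c) / 2 with ha
  set b := (1 - d / c) / 2 with hb
  have hdc : d / c ≤ 1 := (div_le_one hc).mpr h2
  have hdc' : -1 ≤ d / c := by rw [le_div_iff₀ hc]; linarith
  have ha0 : 0 ≤ a := by rw [ha]; linarith
  have hb0 : 0 ≤ b := by rw [hb]; linarith
  have hab : a + b = 1 := by rw [ha, hb]; ring
  have hconv := convexOn_exp.2 (Set.mem_univ (t * c)) (Set.mem_univ (-(t * c))) ha0 hb0 hab
  simp only [smul_eq_mul] at hconv
  have he : a * (t * c) + b * -(t * c) = t * d := by
    rw [ha, hb]; field_simp; ring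
  rw [he] at hconv
  calc Real.exp (t * d) ≤ a * Real.exp (t * c) + b * Real.exp (-(t * c)) := hconv
    _ = Real.cosh (t * c) + d / c * Real.sinh (t * c) := by
      rw [Real.cosh_eq, Real.sinh_eq, ha, hb]; ring

/-- mean of the exponential of a centered bounded family -/
lemma sum_exp_le (hk : 0 < k) {c t : ℝ} (hc : 0 ≤ c) (d : Fin k → ℝ) (hd : ∀ i, |d i| ≤ c)
    (h0 : ∑ i, d i = 0) :
    (∑ i, Real.exp (t * d i)) / k ≤ Real.exp (t ^ 2 * c ^ 2 / 2) := by
  have hk' : (0 : ℝ) < k := by exact_mod_cast hk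
  rcases hc.eq_or_lt with hc0 | hc0
  · have h1 : ∀ i, d i = 0 := fun i => by
      have := hd i
      rw [← hc0] at this
      exact abs_eq_zero.mp (le_antisymm this (abs_nonneg _))
    simp only [h1, mul_zero, Real.exp_zero, Finset.sum_const, Finset.card_univ, Fintype.card_fin,
      nsmul_eq_mul, mul_one]
    rw [div_self hk'.ne']
    exact Real.one_le_exp (by positivity)
  · calc (∑ i, Real.exp (t * d i)) / k
        ≤ (∑ i, (Real.cosh (t * c) + d i / c * Real.sinh (t * c))) / k := by
          apply div_le_div_of_nonneg_right _ hk'.le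
          exact Finset.sum_le_sum fun i _ => exp_le_cosh_sinh hc0 (hd i)
      _ = Real.cosh (t * c) := by
          rw [Finset.sum_add_distrib, ← Finset.sum_mul, ← Finset.sum_div, h0]
          simp only [Finset.sum_const, Finset.card_univ, Fintype.card_fin, nsmul_eq_mul,
            zero_div, zero_mul, add_zero]
          rw [mul_div_cancel_left₀ _ hk'.ne']
      _ ≤ Real.exp ((t * c) ^ 2 / 2) := Real.cosh_le_exp_half_sq _
      _ = Real.exp (t ^ 2 * c ^ 2 / 2) := by congr 1; ring

lemma Osc_cons {n : ℕ} {f : List (Fin k) → ℝ} {c : ℝ} (h : Osc k (n + 1) f c) (a : Fin k) :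
    Osc k n (fun w => f (a :: w)) c := by
  intro w₁ w₂ x y hl
  have := h (a :: w₁) w₂ x y (by simp; omega)
  simpa using this

/-- the means over the remaining letters differ by at most `c` -/
lemma mean_osc (hk : 0 < k) {n : ℕ} {f : List (Fin k) → ℝ} {c : ℝ} (h : Osc k (n + 1) f c)
    (a b : Fin k) : |Ex k n (fun w => f (a :: w)) - Ex k n (fun w => f (b :: w))| ≤ c := by
  rw [← Ex_sub, abs_le]
  constructor
  · exact const_le_Ex hk fun w hw => (abs_le.mp (h [] w a b (by simp [hw]))).1
  · exact Ex_le_const hk fun w hw => (abs_le.mp (h [] w a b (by simp [hw]))).2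

theorem stmt_MGF : Stmt_MGF := by
  intro k n f c t hk hc h
  have hk' : (0 : ℝ) < k := by exact_mod_cast hk
  induction n generalizing f with
  | zero => simp
  | succ n ih =>
    set g : Fin k → ℝ := fun a => Ex k n (fun w => f (a :: w)) with hg
    have hmean : Ex k (n + 1) f = (∑ a, g a) / k := Ex_succ n f
    set m := Ex k (n + 1) f with hm
    have hd : ∀ a, |g a - m| ≤ c := by
      intro a
      have h1 : g a - m = (∑ b, (g a - g b)) / k := by
        rw [hmean, Finset.sum_sub_distrib]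
        simp only [Finset.sum_const, Finset.card_univ, Fintype.card_fin, nsmul_eq_mul]
        field_simp
      rw [h1, abs_div, abs_of_pos hk', div_le_iff₀ hk']
      calc |∑ b, (g a - g b)| ≤ ∑ b, |g a - g b| := Finset.abs_sum_le_sum_abs _ _
        _ ≤ ∑ _b : Fin k, c := Finset.sum_le_sum fun b _ => mean_osc hk h a b
        _ = c * k := by simp [mul_comm]
    have h0 : ∑ a, (g a - m) = 0 := by
      rw [Finset.sum_sub_distrib, hmean]
      simp only [Finset.sum_const, Finset.card_univ, Fintype.card_fin, nsmul_eq_mul]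
      field_simp
      ring
    rw [Ex_succ]
    have h2 : ∀ a : Fin k, Ex k n (fun w => Real.exp (t * (f (a :: w) - m))) ≤
        Real.exp (t * (g a - m)) * Real.exp (t ^ 2 * c ^ 2 * n / 2) := by
      intro a
      have h3 := ih (fun w => f (a :: w)) (Osc_cons h a)
      have h4 : ∀ w : List (Fin k), w.length = n → Real.exp (t * (f (a :: w) - m)) =
          Real.exp (t * (g a - m)) * Real.exp (t * (f (a :: w) - g a)) := by
        intro w _
        rw [← Real.exp_add]; congr 1; ring
      rw [Ex_congr h4, Ex_const_mul]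
      exact mul_le_mul_of_nonneg_left h3 (Real.exp_pos _).le
    calc (∑ a, Ex k n (fun w => Real.exp (t * (f (a :: w) - m)))) / k
        ≤ (∑ a, Real.exp (t * (g a - m)) * Real.exp (t ^ 2 * c ^ 2 * n / 2)) / k := by
          apply div_le_div_of_nonneg_right _ hk'.le
          exact Finset.sum_le_sum fun a _ => h2 a
      _ = (∑ a, Real.exp (t * (g a - m))) / k * Real.exp (t ^ 2 * c ^ 2 * n / 2) := by
          rw [← Finset.sum_mul]; ring
      _ ≤ Real.exp (t ^ 2 * c ^ 2 / 2) * Real.exp (t ^ 2 * c ^ 2 * n / 2) := by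
          apply mul_le_mul_of_nonneg_right _ (Real.exp_pos _).le
          exact sum_exp_le hk hc (fun a => g a - m) hd h0
      _ = Real.exp (t ^ 2 * c ^ 2 * ((n + 1 : ℕ) : ℝ) / 2) := by
          rw [← Real.exp_add]; congr 1; push_cast; ring

lemma Ex_abs_le {n : ℕ} (f : List (Fin k) → ℝ) : |Ex k n f| ≤ Ex k n (fun w => |f w|) := by
  rw [abs_le]
  constructor
  · rw [← Ex_neg]; exact Ex_mono fun w _ => neg_abs_le _
  · exact Ex_mono fun w _ => le_abs_self _

/-- mean of `cosh` -/
lemma cosh_moment {n : ℕ} {f : List (Fin k) → ℝ} {c : ℝ} (hk : 0 < k) (hc : 0 ≤ c)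
    (h : Osc k n f c) (t : ℝ) :
    Ex k n (fun w => Real.cosh (t * (f w - Ex k n f))) ≤ Real.exp (t ^ 2 * c ^ 2 * n / 2) := by
  have h1 := stmt_MGF k n f c t hk hc h
  have h2 := stmt_MGF k n f c (-t) hk hc h
  have h3 : Ex k n (fun w => Real.cosh (t * (f w - Ex k n f))) =
      (Ex k n (fun w => Real.exp (t * (f w - Ex k n f))) +
        Ex k n (fun w => Real.exp (-t * (f w - Ex k n f)))) * (1 / 2) := by
    rw [← Ex_add, ← Ex_mul_const]
    refine Ex_congr fun w _ => ?_
    rw [Real.cosh_eq, neg_mul]; ring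
  rw [h3]
  have h4 : (-t) ^ 2 = t ^ 2 := by ring
  rw [h4] at h2
  linarith

lemma exp_abs_le_cosh (x : ℝ) : Real.exp |x| ≤ 2 * Real.cosh x := by
  rw [Real.cosh_eq]
  rcases abs_cases x with ⟨h, _⟩ | ⟨h, _⟩
  · rw [h]; linarith [Real.exp_pos (-x)]
  · rw [h]; linarith [Real.exp_pos x]

lemma sq_le_cosh (x : ℝ) : x ^ 2 ≤ 4 * Real.cosh x := by
  have h := Real.pow_div_factorial_le_exp |x| (abs_nonneg x) 2
  norm_num [Nat.factorial] at h
  linarith [exp_abs_le_cosh x]

/-- variance bound -/
lemma var_le {n : ℕ} {f : List (Fin k) → ℝ} {c : ℝ} (hk : 0 < k) (hc : 0 ≤ c)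
    (h : Osc k n f c) : Ex k n (fun w => (f w - Ex k n f) ^ 2) ≤ 8 * c ^ 2 * n := by
  rcases Nat.eq_zero_or_pos n with rfl | hn
  · simp
  · have hn' : (0 : ℝ) < n := by exact_mod_cast hn
    rcases hc.eq_or_lt with hc0 | hc0
    · -- use the mgf for all t
      have h1 : ∀ t : ℝ, t ^ 2 * Ex k n (fun w => (f w - Ex k n f) ^ 2) ≤ 4 := by
        intro t
        have h2 := cosh_moment hk hc h t
        rw [← hc0] at h2
        simp only [ne_eq, OfNat.ofNat_ne_zero, not_false_eq_true, zero_pow, mul_zero, zero_mul,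
          zero_div, Real.exp_zero] at h2
        have h3 : t ^ 2 * Ex k n (fun w => (f w - Ex k n f) ^ 2) ≤
            4 * Ex k n (fun w => Real.cosh (t * (f w - Ex k n f))) := by
          rw [← Ex_const_mul, ← Ex_const_mul]
          refine Ex_mono fun w _ => ?_
          have := sq_le_cosh (t * (f w - Ex k n f))
          nlinarith
        linarith
      have h4 : 0 ≤ Ex k n (fun w => (f w - Ex k n f) ^ 2) := Ex_nonneg fun w _ => sq_nonneg _
      rw [← hc0]
      simp only [ne_eq, OfNat.ofNat_ne_zero, not_false_eq_true, zero_pow, mul_zero, zero_mul]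
      by_contra hcon
      push Not at hcon
      have h5 := h1 (Real.sqrt (5 / Ex k n (fun w => (f w - Ex k n f) ^ 2)))
      rw [Real.sq_sqrt (by positivity), div_mul_cancel₀ _ hcon.ne'] at h5
      norm_num at h5
    · have h2 := cosh_moment hk hc h (1 / (c * Real.sqrt n))
      have hs : 0 < Real.sqrt n := Real.sqrt_pos.mpr hn'
      have h6 : (1 / (c * Real.sqrt n)) ^ 2 * c ^ 2 * n / 2 = 1 / 2 := by
        rw [div_pow, mul_pow, Real.sq_sqrt hn'.le]; field_simp
      rw [h6] at h2
      have h7 : (1 / (c ^ 2 * n)) * Ex k n (fun w => (f w - Ex k n f) ^ 2) ≤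
            4 * Ex k n (fun w => Real.cosh (1 / (c * Real.sqrt n) * (f w - Ex k n f))) := by
        rw [← Ex_const_mul, ← Ex_const_mul]
        refine Ex_mono fun w _ => ?_
        have := sq_le_cosh (1 / (c * Real.sqrt n) * (f w - Ex k n f))
        have h8 : (1 / (c * Real.sqrt n) * (f w - Ex k n f)) ^ 2 =
            (1 / (c ^ 2 * n)) * (f w - Ex k n f) ^ 2 := by
          rw [mul_pow, div_pow, mul_pow, Real.sq_sqrt hn'.le]; ring
        rw [h8] at this
        linarith
      have h9 : Real.exp (1 / 2) ≤ 2 := by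
        have h10 : Real.exp (1 / 2) * Real.exp (1 / 2) = Real.exp 1 := by
          rw [← Real.exp_add]; norm_num
        have h11 := Real.exp_one_lt_d9
        nlinarith [Real.exp_pos (1 / 2)]
      have h12 : (1 / (c ^ 2 * n)) * Ex k n (fun w => (f w - Ex k n f) ^ 2) ≤ 8 := by linarith
      rw [one_div, inv_mul_le_iff₀ (by positivity)] at h12
      linarith

lemma pow_four_le_cosh (x : ℝ) : x ^ 4 ≤ 48 * Real.cosh x := by
  have h := Real.pow_div_factorial_le_exp |x| (abs_nonneg x) 4
  have h2 : |x| ^ 4 = x ^ 4 := by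
    rw [show (4 : ℕ) = 2 * 2 by norm_num, pow_mul, pow_mul, sq_abs]
  rw [h2] at h
  norm_num [Nat.factorial] at h
  linarith [exp_abs_le_cosh x]

/-- fourth moment bound -/
lemma fourth_le {n : ℕ} {f : List (Fin k) → ℝ} {c : ℝ} (hk : 0 < k) (hc : 0 < c)
    (h : Osc k n f c) : Ex k n (fun w => (f w - Ex k n f) ^ 4) ≤ 96 * c ^ 4 * n ^ 2 := by
  rcases Nat.eq_zero_or_pos n with rfl | hn
  · simp
  · have hn' : (0 : ℝ) < n := by exact_mod_cast hn
    have h2 := cosh_moment hk hc.le h (1 / (c * Real.sqrt n))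
    have hs : 0 < Real.sqrt n := Real.sqrt_pos.mpr hn'
    have h6 : (1 / (c * Real.sqrt n)) ^ 2 * c ^ 2 * n / 2 = 1 / 2 := by
      rw [div_pow, mul_pow, Real.sq_sqrt hn'.le]; field_simp
    rw [h6] at h2
    have h7 : (1 / (c ^ 4 * n ^ 2)) * Ex k n (fun w => (f w - Ex k n f) ^ 4) ≤
          48 * Ex k n (fun w => Real.cosh (1 / (c * Real.sqrt n) * (f w - Ex k n f))) := by
      rw [← Ex_const_mul, ← Ex_const_mul]
      refine Ex_mono fun w _ => ?_
      have := pow_four_le_cosh (1 / (c * Real.sqrt n) * (f w - Ex k n f))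
      have hs4 : Real.sqrt n ^ 4 = (n : ℝ) ^ 2 := by
        rw [show (4 : ℕ) = 2 * 2 by norm_num, pow_mul, Real.sq_sqrt hn'.le]
      have h8 : (1 / (c * Real.sqrt n) * (f w - Ex k n f)) ^ 4 =
          (1 / (c ^ 4 * n ^ 2)) * (f w - Ex k n f) ^ 4 := by
        rw [mul_pow, div_pow, mul_pow, hs4]; ring
      rw [h8] at this
      linarith
    have h9 : Real.exp (1 / 2) ≤ 2 := by
      have h10 : Real.exp (1 / 2) * Real.exp (1 / 2) = Real.exp 1 := by
        rw [← Real.exp_add]; norm_num
      have h11 := Real.exp_one_lt_d9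
      nlinarith [Real.exp_pos (1 / 2)]
    have h12 : (1 / (c ^ 4 * n ^ 2)) * Ex k n (fun w => (f w - Ex k n f) ^ 4) ≤ 96 := by linarith
    rw [one_div, inv_mul_le_iff₀ (by positivity)] at h12
    linarith

end Pool.Agent.LCSQ
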