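import Pool.Agent.Work.MP_bec1e1_Q_h57.Interface

/-! # Sub- and superadditivity of the free energy (blocks SUB, SUP) -/

set_option autoImplicit false

open scoped BigOperators

namespace Pool.Agent.LCSQ

open Pool.Agent.LCSE

variable {k : ℕ}

lemma conv_eq (z q : ℝ) (x₁ x₂ : List (Fin k)) (b : ℕ) :
    ∑ g ∈ Finset.range (b + 1), (Real.exp (-(z * q * g)) * W k z x₁ g) *
      (Real.exp (-(z * q * (b - g : ℕ))) * W k z x₂ (b - g)) =
    Real.exp (-(z * q * b)) * ∑ g ∈ Finset.range (b + 1), W k z x₁ g * W k z x₂ (b - g) := by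
  rw [Finset.mul_sum]
  refine Finset.sum_congr rfl fun g hg => ?_
  have hg' : g ≤ b := Nat.lt_succ_iff.mp (Finset.mem_range.mp hg)
  have h : Real.exp (-(z * q * g)) * Real.exp (-(z * q * (b - g : ℕ))) =
      Real.exp (-(z * q * b)) := by
    rw [← Real.exp_add]; congr 1; rw [Nat.cast_sub hg']; ring
  rw [← h]; ring

lemma Zb_mul (hk : 0 < k) {z q : ℝ} (hz : 0 < z) (hq : 0 < q) (x₁ x₂ : List (Fin k)) :
    Zb k z q x₁ * Zb k z q x₂ = ∑' b : ℕ, Real.exp (-(z * q * b)) *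
      ∑ g ∈ Finset.range (b + 1), W k z x₁ g * W k z x₂ (b - g) := by
  unfold Zb
  rw [tsum_mul_tsum_eq_tsum_sum_range_of_summable_norm (summable_Zb hk hz hq x₁).norm
    (summable_Zb hk hz hq x₂).norm]
  exact tsum_congr fun b => conv_eq z q x₁ x₂ b

lemma summable_conv (hk : 0 < k) {z q : ℝ} (hz : 0 < z) (hq : 0 < q) (x₁ x₂ : List (Fin k)) :
    Summable fun b : ℕ => Real.exp (-(z * q * b)) *
      ∑ g ∈ Finset.range (b + 1), W k z x₁ g * W k z x₂ (b - g) := by
  have h := (summable_norm_sum_mul_range_of_summable_norm (summable_Zb hk hz hq x₁).norm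
    (summable_Zb hk hz hq x₂).norm).of_norm
  exact h.congr fun b => conv_eq z q x₁ x₂ b

lemma Zb_append_le (hk : 0 < k) {z q : ℝ} (hz : 0 < z) (hq : 0 < q) (x₁ x₂ : List (Fin k)) :
    Zb k z q (x₁ ++ x₂) ≤ Zb k z q x₁ * Zb k z q x₂ := by
  rw [Zb_mul hk hz hq]
  unfold Zb
  refine Summable.tsum_le_tsum (fun b => ?_) (summable_Zb hk hz hq _) (summable_conv hk hz hq _ _)
  exact mul_le_mul_of_nonneg_left (W_split z x₁ x₂ b) (Real.exp_pos _).le

theorem stmt_SUB : Stmt_SUB := by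
  intro k z p q hk hz hq x₁ x₂
  have h := Real.log_le_log (Zb_pos hk hz hq _) (Zb_append_le hk hz hq x₁ x₂)
  rw [Real.log_mul (Zb_pos hk hz hq _).ne' (Zb_pos hk hz hq _).ne'] at h
  unfold FE
  rw [List.length_append]
  push_cast
  linarith

lemma lin_exp_le {t : ℝ} (ht : 0 < t) (b : ℕ) :
    ((b : ℝ) + 1) * Real.exp (-(t * b)) ≤ 2 / t * Real.exp (t / 2) * Real.exp (-(t / 2 * b)) := by
  have h1 : t / 2 * ((b : ℝ) + 1) ≤ Real.exp (t / 2 * ((b : ℝ) + 1)) := by
    linarith [Real.add_one_le_exp (t / 2 * ((b : ℝ) + 1))]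
  have h2 : (b : ℝ) + 1 ≤ 2 / t * Real.exp (t / 2 * ((b : ℝ) + 1)) := by
    rw [div_mul_eq_mul_div, le_div_iff₀ ht]
    nlinarith
  calc ((b : ℝ) + 1) * Real.exp (-(t * b))
      ≤ 2 / t * Real.exp (t / 2 * ((b : ℝ) + 1)) * Real.exp (-(t * b)) :=
        mul_le_mul_of_nonneg_right h2 (Real.exp_pos _).le
    _ = 2 / t * Real.exp (t / 2) * Real.exp (-(t / 2 * b)) := by
        rw [mul_assoc, mul_assoc, ← Real.exp_add, ← Real.exp_add]
        congr 2
        ring

lemma conv_le (hk : 0 < k) {z : ℝ} (hz : 0 < z) (x₁ x₂ : List (Fin k)) (b : ℕ) :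
    ∑ g ∈ Finset.range (b + 1), W k z x₁ g * W k z x₂ (b - g) ≤
      ((b : ℝ) + 1) * W k z (x₁ ++ x₂) b := by
  calc ∑ g ∈ Finset.range (b + 1), W k z x₁ g * W k z x₂ (b - g)
      ≤ ∑ _g ∈ Finset.range (b + 1), W k z (x₁ ++ x₂) b := by
        refine Finset.sum_le_sum fun g hg => ?_
        have hg' : g ≤ b := Nat.lt_succ_iff.mp (Finset.mem_range.mp hg)
        have h := W_mul_le hk hz.le x₁ x₂ g (b - g)
        rwa [Nat.add_sub_cancel' hg'] at h
    _ = ((b : ℝ) + 1) * W k z (x₁ ++ x₂) b := by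
        rw [Finset.sum_const, Finset.card_range, nsmul_eq_mul]; push_cast; ring

/-- quantitative form of the superadditivity -/
lemma Zb_mul_le (hk : 0 < k) {z q : ℝ} (hz : 0 < z) (hq : 0 < q) :
    ∃ C : ℝ, 1 ≤ C ∧ ∀ x₁ x₂ : List (Fin k), Zb k z q x₁ * Zb k z q x₂ ≤
      C * (x₁.length + x₂.length + 1) * Zb k z q (x₁ ++ x₂) := by
  have hzq : 0 < z * q := mul_pos hz hq
  set t := z * q / 2 with ht
  have ht0 : 0 < t := by positivity
  set C₂ : ℝ := 2 / t * Real.exp (t / 2) * (1 - Real.exp (-(t / 2)))⁻¹ with hC₂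
  have hpos : 0 < 1 - Real.exp (-(t / 2)) := by
    have : Real.exp (-(t / 2)) < 1 := by
      rw [← Real.exp_zero]; exact Real.exp_lt_exp.mpr (by linarith)
    linarith
  have hC₂0 : 0 < C₂ := by positivity
  have hq2 : 0 < 2 / q := by positivity
  refine ⟨2 / q + 2 + C₂, by linarith, fun x₁ x₂ => ?_⟩
  set N : ℝ := x₁.length + x₂.length with hN
  have hN0 : 0 ≤ N := by positivity
  have hlen : ((x₁ ++ x₂).length : ℝ) = N := by rw [List.length_append, hN]; push_cast; ring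
  have hterm : ∀ b : ℕ, Real.exp (-(z * q * b)) *
      ∑ g ∈ Finset.range (b + 1), W k z x₁ g * W k z x₂ (b - g) ≤
      (2 * N / q + 2) * (Real.exp (-(z * q * b)) * W k z (x₁ ++ x₂) b) +
        2 / t * Real.exp (t / 2) * Real.exp (-(t / 2 * b)) := by
    intro b
    have h1 := mul_le_mul_of_nonneg_left (conv_le hk hz x₁ x₂ b) (Real.exp_pos (-(z * q * b))).le
    have hW := W_pos hk z (x₁ ++ x₂) b
    have hE := Real.exp_pos (-(z * q * b))
    rcases le_total (b : ℝ) (2 * N / q) with hb | hb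
    · have h2 : ((b : ℝ) + 1) * (Real.exp (-(z * q * b)) * W k z (x₁ ++ x₂) b) ≤
          (2 * N / q + 2) * (Real.exp (-(z * q * b)) * W k z (x₁ ++ x₂) b) :=
        mul_le_mul_of_nonneg_right (by linarith) (mul_pos hE hW).le
      have h3 : 0 ≤ 2 / t * Real.exp (t / 2) * Real.exp (-(t / 2 * b)) := by positivity
      calc _ ≤ Real.exp (-(z * q * b)) * (((b : ℝ) + 1) * W k z (x₁ ++ x₂) b) := h1
        _ = ((b : ℝ) + 1) * (Real.exp (-(z * q * b)) * W k z (x₁ ++ x₂) b) := by ring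
        _ ≤ _ := by linarith
    · have hNb : z * N ≤ t * b := by
        rw [ht]
        have : 2 * N ≤ q * b := by
          rw [div_le_iff₀ hq] at hb; linarith
        nlinarith
      have h2 : Real.exp (-(z * q * b)) * W k z (x₁ ++ x₂) b ≤ Real.exp (-(t * b)) := by
        calc Real.exp (-(z * q * b)) * W k z (x₁ ++ x₂) b
            ≤ Real.exp (-(z * q * b)) * Real.exp (z * N) := by
              have := W_le_exp_left hk hz.le (x₁ ++ x₂) b
              rw [hlen] at this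
              exact mul_le_mul_of_nonneg_left this hE.le
          _ ≤ Real.exp (-(t * b)) := by
              rw [← Real.exp_add]
              apply Real.exp_le_exp.mpr
              rw [ht] at hNb ⊢
              linarith
      have h3 := lin_exp_le ht0 b
      have h4 : 0 ≤ (2 * N / q + 2) * (Real.exp (-(z * q * b)) * W k z (x₁ ++ x₂) b) := by
        positivity
      have hb1 : (0 : ℝ) ≤ (b : ℝ) + 1 := by positivity
      calc _ ≤ Real.exp (-(z * q * b)) * (((b : ℝ) + 1) * W k z (x₁ ++ x₂) b) := h1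
        _ = ((b : ℝ) + 1) * (Real.exp (-(z * q * b)) * W k z (x₁ ++ x₂) b) := by ring
        _ ≤ ((b : ℝ) + 1) * Real.exp (-(t * b)) := mul_le_mul_of_nonneg_left h2 hb1
        _ ≤ _ := by linarith
  have hs1 := (summable_Zb hk hz hq (x₁ ++ x₂)).mul_left (2 * N / q + 2)
  have hs2 := (summable_geom (half_pos ht0)).mul_left (2 / t * Real.exp (t / 2))
  have h5 : Zb k z q x₁ * Zb k z q x₂ ≤ (2 * N / q + 2) * Zb k z q (x₁ ++ x₂) + C₂ := by
    rw [Zb_mul hk hz hq]
    calc _ ≤ ∑' b : ℕ, ((2 * N / q + 2) * (Real.exp (-(z * q * b)) * W k z (x₁ ++ x₂) b) +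
            2 / t * Real.exp (t / 2) * Real.exp (-(t / 2 * b))) :=
          Summable.tsum_le_tsum hterm (summable_conv hk hz hq _ _) (hs1.add hs2)
      _ = _ := by
          rw [hs1.tsum_add hs2, tsum_mul_left, tsum_mul_left, tsum_geom (half_pos ht0)]
          rfl
  have h6 := one_le_Zb hk hz hq (x₁ ++ x₂)
  have h7 : 2 * N / q = 2 / q * N := by ring
  rw [h7] at h5
  have h8 : 0 < 2 / q := by positivity
  nlinarith [mul_nonneg hN0 (mul_pos h8 (Zb_pos hk hz hq (x₁ ++ x₂))).le,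
    mul_nonneg hN0 (Zb_pos hk hz hq (x₁ ++ x₂)).le, mul_pos h8 (Zb_pos hk hz hq (x₁ ++ x₂)),
    mul_nonneg hC₂0.le (sub_nonneg.mpr h6),
    mul_nonneg hN0 (mul_pos hC₂0 (Zb_pos hk hz hq (x₁ ++ x₂))).le]

theorem stmt_SUP : Stmt_SUP := by
  intro k z p q hk hz hq
  obtain ⟨C, hC, h⟩ := Zb_mul_le (k := k) hk hz hq
  refine ⟨C, hC, fun x₁ x₂ => ?_⟩
  have hpos : (0 : ℝ) < C * (x₁.length + x₂.length + 1) := by positivity
  have h1 := Real.log_le_log (mul_pos (Zb_pos hk hz hq x₁) (Zb_pos hk hz hq x₂)) (h x₁ x₂)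
  rw [Real.log_mul (Zb_pos hk hz hq _).ne' (Zb_pos hk hz hq _).ne',
    Real.log_mul hpos.ne' (Zb_pos hk hz hq _).ne'] at h1
  unfold FE
  rw [List.length_append]
  push_cast
  linarith

end Pool.Agent.LCSQ
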